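import Mathlib
import Pool.Agent.Helper923.PNTQ

/-! The number of primes that are `1` modulo `q` in `(Z, 2 Z]`. -/

set_option autoImplicit false

open Finset Filter Topology Asymptotics

namespace Pool.Agent.TH423.DS

open Classical in
theorem primes_count (q : ℕ) (hq : 0 < q) (η : ℝ) (hη : 0 < η) : ∃ Z₀ : ℕ, ∀ Z : ℕ, Z₀ ≤ Z →
    (Z : ℝ) ^ (1 - η) ≤
      (((Finset.Ioc Z (2 * Z)).filter (fun p : ℕ => p.Prime ∧ (q : ℤ) ∣ (p : ℤ) - 1)).card : ℝ) := by
  have : NeZero q := ⟨hq.ne'⟩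
  obtain ⟨φ, hφ⟩ : ∃ φ : ℝ, φ = (q.totient : ℝ) := ⟨_, rfl⟩
  have hφ0 : 0 < φ := by
    have : 0 < q.totient := Nat.totient_pos.2 hq
    rw [hφ]
    exact_mod_cast this
  have h1 := Pool.Agent.Helper923.H403.PNT602.pnt_residueClass (q := q) (a := 1) isUnit_one
  rw [← hφ] at h1
  have h2 : ∀ᶠ x : ℝ in atTop, 7 / (8 * φ) < (∑ k ∈ Finset.Icc 1 ⌊x⌋₊,
      ArithmeticFunction.vonMangoldt.residueClass (1 : ZMod q) k) / x := by
    refine h1.eventually (lt_mem_nhds ?_)
    rw [div_lt_iff₀ (by positivity)]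
    have : φ⁻¹ * φ = 1 := inv_mul_cancel₀ hφ0.ne'
    nlinarith
  have h2' : ∀ᶠ x : ℝ in atTop, (∑ k ∈ Finset.Icc 1 ⌊x⌋₊,
      ArithmeticFunction.vonMangoldt.residueClass (1 : ZMod q) k) / x < 9 / (8 * φ) := by
    refine h1.eventually (gt_mem_nhds ?_)
    rw [lt_div_iff₀ (by positivity)]
    have : φ⁻¹ * φ = 1 := inv_mul_cancel₀ hφ0.ne'
    nlinarith
  have h3 : ∀ᶠ x : ℝ in atTop, x ^ (1 - η) * Real.log (2 * x) +
      2 * (Real.sqrt (2 * x) * Real.log (2 * x)) ≤ x / (2 * φ) := by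
    obtain ⟨θ, hθ⟩ : ∃ θ : ℝ, θ = min η (1 / 4) := ⟨_, rfl⟩
    have hθ0 : 0 < θ := by rw [hθ]; positivity
    have hθη : θ ≤ η := by rw [hθ]; exact min_le_left _ _
    have hθ4 : θ ≤ 1 / 4 := by rw [hθ]; exact min_le_right _ _
    have e1 : (fun x : ℝ => Real.log 2 + Real.log x) =o[atTop] (fun x : ℝ => x ^ θ) := by
      refine IsLittleO.add ?_ (isLittleO_log_rpow_atTop hθ0)
      rw [isLittleO_const_left]
      right
      exact tendsto_norm_atTop_atTop.comp (tendsto_rpow_atTop hθ0)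
    have e2 := e1.bound (c := 1 / (10 * φ)) (by positivity)
    filter_upwards [e2, eventually_ge_atTop 1] with x hx hx1
    have hx0 : 0 < x := by linarith
    have hlog : Real.log (2 * x) = Real.log 2 + Real.log x := Real.log_mul (by norm_num) hx0.ne'
    have hl0 : 0 ≤ Real.log (2 * x) := Real.log_nonneg (by linarith)
    have h4 := (le_abs_self _).trans hx
    rw [← hlog, Real.norm_eq_abs, abs_of_pos (Real.rpow_pos_of_pos hx0 _)] at h4
    have h5 : x ^ (1 - η) ≤ x ^ (1 - θ) := Real.rpow_le_rpow_of_exponent_le hx1 (by linarith)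
    have h6 : Real.sqrt (2 * x) ≤ 2 * x ^ (1 - θ) := by
      have h7 : Real.sqrt (2 * x) ≤ 2 * Real.sqrt x := by
        rw [Real.sqrt_le_left (by positivity), mul_pow, Real.sq_sqrt hx0.le]
        linarith
      have h8 : Real.sqrt x ≤ x ^ (1 - θ) := by
        rw [Real.sqrt_eq_rpow]
        exact Real.rpow_le_rpow_of_exponent_le hx1 (by linarith)
      linarith
    have h9 : x ^ (1 - θ) * x ^ θ = x := by
      rw [← Real.rpow_add hx0]; simp
    have h10 : 0 ≤ x ^ (1 - θ) := (Real.rpow_pos_of_pos hx0 _).le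
    calc x ^ (1 - η) * Real.log (2 * x) + 2 * (Real.sqrt (2 * x) * Real.log (2 * x))
        ≤ x ^ (1 - θ) * Real.log (2 * x) + 2 * (2 * x ^ (1 - θ) * Real.log (2 * x)) := by
          have := mul_le_mul_of_nonneg_right h5 hl0
          have := mul_le_mul_of_nonneg_right h6 hl0
          linarith
      _ = 5 * (x ^ (1 - θ) * Real.log (2 * x)) := by ring
      _ ≤ 5 * (x ^ (1 - θ) * (1 / (10 * φ) * x ^ θ)) := by
          have := mul_le_mul_of_nonneg_left h4 h10
          linarith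
      _ = (x ^ (1 - θ) * x ^ θ) / (2 * φ) := by field_simp; norm_num
      _ = x / (2 * φ) := by rw [h9]
  have hn : Tendsto (fun Z : ℕ => (Z : ℝ)) atTop atTop := tendsto_natCast_atTop_atTop
  have hn2 : Tendsto (fun Z : ℕ => ((2 * Z : ℕ) : ℝ)) atTop atTop := by
    refine hn.comp (tendsto_id.const_mul_atTop' (by norm_num))
  have h4 := (hn2.eventually h2).and ((hn.eventually h2').and
    ((hn.eventually h3).and (eventually_ge_atTop 1)))
  obtain ⟨Z₀, hZ₀⟩ := eventually_atTop.1 h4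
  refine ⟨Z₀, fun Z hZ => ?_⟩
  obtain ⟨hA, hB, hC, hZ1⟩ := hZ₀ Z hZ
  have hZ1' : (1 : ℝ) ≤ Z := by exact_mod_cast hZ1
  rw [Nat.floor_natCast] at hA hB
  have hZp : (0 : ℝ) < (Z : ℝ) := by linarith
  have hZ2p : (0 : ℝ) < ((2 * Z : ℕ) : ℝ) := by push_cast; linarith
  rw [lt_div_iff₀ hZ2p] at hA
  rw [div_lt_iff₀ hZp] at hB
  obtain ⟨N, hN⟩ : ∃ N : ℕ, N = ((Finset.Ioc Z (2 * Z)).filter
    (fun p : ℕ => p.Prime ∧ (q : ℤ) ∣ (p : ℤ) - 1)).card := ⟨_, rfl⟩
  -- upper bound for the sum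
  have hup : ∑ k ∈ Finset.Icc 1 (2 * Z), ArithmeticFunction.vonMangoldt.residueClass (1 : ZMod q) k ≤
      ∑ k ∈ Finset.Icc 1 Z, ArithmeticFunction.vonMangoldt.residueClass (1 : ZMod q) k +
        N * Real.log (2 * Z) +
        (Chebyshev.psi ((2 * Z : ℕ) : ℝ) - Chebyshev.theta ((2 * Z : ℕ) : ℝ)) := by
    rw [Chebyshev.psi_sub_theta_eq_sum_not_prime, Nat.floor_natCast]
    have e1 : ∑ k ∈ Finset.Icc 1 Z, ArithmeticFunction.vonMangoldt.residueClass (1 : ZMod q) k =
        ∑ k ∈ Finset.Icc 1 (2 * Z),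
          if k ≤ Z then ArithmeticFunction.vonMangoldt.residueClass (1 : ZMod q) k else 0 := by
      rw [← Finset.sum_filter]
      apply Finset.sum_congr _ fun _ _ => rfl
      ext k
      simp only [Finset.mem_filter, Finset.mem_Icc]
      omega
    have e2 : (∑ k ∈ Finset.Ioc 0 (2 * Z) with ¬ k.Prime, ArithmeticFunction.vonMangoldt k) =
        ∑ k ∈ Finset.Icc 1 (2 * Z), if ¬ k.Prime then ArithmeticFunction.vonMangoldt k else 0 := by
      rw [Finset.sum_filter]
      rfl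
    have e3 : (N : ℝ) * Real.log (2 * Z) = ∑ k ∈ Finset.Icc 1 (2 * Z),
        if (Z < k ∧ k.Prime ∧ (q : ℤ) ∣ (k : ℤ) - 1) then Real.log (2 * Z) else 0 := by
      rw [← Finset.sum_filter, Finset.sum_const, nsmul_eq_mul, hN]
      congr 2
      apply congrArg Finset.card
      ext k
      simp only [Finset.mem_filter, Finset.mem_Icc, Finset.mem_Ioc]
      constructor
      · rintro ⟨⟨a, b⟩, c⟩
        exact ⟨⟨by omega, b⟩, a, c⟩
      · rintro ⟨⟨a, b⟩, c, d⟩
        exact ⟨⟨c, b⟩, d⟩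
    rw [e1, e2, e3, ← Finset.sum_add_distrib, ← Finset.sum_add_distrib]
    refine Finset.sum_le_sum fun k hk => ?_
    rw [Finset.mem_Icc] at hk
    have hle := ArithmeticFunction.vonMangoldt.residueClass_le (1 : ZMod q) k
    have h0 : (0 : ℝ) ≤ ArithmeticFunction.vonMangoldt k := ArithmeticFunction.vonMangoldt_nonneg
    have hl0 : (0 : ℝ) ≤ Real.log (2 * Z) := Real.log_nonneg (by linarith)
    by_cases hkY : k ≤ Z
    · rw [if_pos hkY]
      split_ifs <;> linarith
    · rw [if_neg hkY]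
      by_cases hkp : k.Prime
      · by_cases hkq : (q : ℤ) ∣ (k : ℤ) - 1
        · rw [if_pos ⟨by omega, hkp, hkq⟩, if_neg (by simpa using hkp)]
          have h5 : ArithmeticFunction.vonMangoldt k = Real.log k :=
            ArithmeticFunction.vonMangoldt_apply_prime hkp
          have h6 : Real.log k ≤ Real.log (2 * Z) := by
            apply Real.log_le_log
            · exact_mod_cast hk.1
            · exact_mod_cast hk.2
          linarith
        · have h6 : ArithmeticFunction.vonMangoldt.residueClass (1 : ZMod q) k = 0 := by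
            unfold ArithmeticFunction.vonMangoldt.residueClass
            rw [Set.indicator_of_notMem]
            intro h7
            apply hkq
            have h8 : (k : ZMod q) = 1 := h7
            have h9 : ((((k : ℤ) - 1 : ℤ)) : ZMod q) = 0 := by
              push_cast
              rw [h8, sub_self]
            exact (ZMod.intCast_zmod_eq_zero_iff_dvd _ _).1 h9
          rw [h6]
          split_ifs <;> linarith
      · rw [if_pos hkp]
        split_ifs <;> linarith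
  have hsq1 : (1 : ℝ) ≤ ((2 * Z : ℕ) : ℝ) := by push_cast; linarith
  have hdiff := (le_abs_self _).trans (Chebyshev.abs_psi_sub_theta_le_sqrt_mul_log hsq1)
  push_cast at hdiff hA hup
  have hlog : 0 < Real.log (2 * Z) := Real.log_pos (by linarith)
  have hA' : 7 / (8 * φ) * (2 * (Z : ℝ)) = 14 * (Z / (8 * φ)) := by field_simp; norm_num
  have hB' : 9 / (8 * φ) * (Z : ℝ) = 9 * (Z / (8 * φ)) := by field_simp
  have hC' : (Z : ℝ) / (2 * φ) = 4 * (Z / (8 * φ)) := by field_simp; norm_num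
  have hZφ : 0 < (Z : ℝ) / (8 * φ) := by positivity
  rw [hA'] at hA
  rw [hB'] at hB
  rw [hC'] at hC
  have hfin : (Z : ℝ) ^ (1 - η) * Real.log (2 * Z) ≤ N * Real.log (2 * Z) := by
    linarith
  rw [← hN]
  exact le_of_mul_le_mul_right hfin hlog

end Pool.Agent.TH423.DS
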