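import Pool.Agent.H661R3.OP.Defs
import Pool.Agent.H661R3.OP.CR

/-! Arithmetic lemmas. -/

set_option autoImplicit false

open Finset Polynomial

namespace Pool.Agent.TH423.DS

open Pool.Agent.H661R3.OP (Rough)

theorem Rough.mul {Y : ℕ} {x y : ℤ} (hx : Rough Y x) (hy : Rough Y y) : Rough Y (x * y) := by
  intro p hp hpY h
  rcases (Nat.prime_iff_prime_int.1 hp).dvd_or_dvd h with h | h
  · exact hx p hp hpY h
  · exact hy p hp hpY h

theorem Rough.of_mul_left {Y : ℕ} {x y : ℤ} (h : Rough Y (x * y)) : Rough Y x :=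
  fun p hp hpY hd => h p hp hpY (hd.mul_right _)

theorem Rough.prime {Y p : ℕ} (hp : p.Prime) (h : Y < p) : Rough Y (p : ℤ) := by
  intro l hl hlY hd
  have h1 : l ∣ p := Int.natCast_dvd_natCast.1 hd
  have h2 : l = p := (Nat.prime_dvd_prime_iff_eq hl hp).1 h1
  omega

theorem Rough.prod {Y : ℕ} {ι : Type} (A : Finset ι) (f : ι → ℤ) (h : ∀ i ∈ A, Rough Y (f i)) :
    Rough Y (∏ i ∈ A, f i) := by
  intro p hp hpY hd
  obtain ⟨i, hi, hd⟩ := (Prime.dvd_finsetProd_iff (Nat.prime_iff_prime_int.1 hp) f).1 hd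
  exact h i hi p hp hpY hd

/-- a residue that avoids the zeros modulo all small primes -/
theorem exists_nst (k : ℕ) (f : ℤ[X]) {s : ℕ} (g : Fin s → ℤ[X])
    (h : ∀ p : ℕ, p.Prime → ∃ n : ℤ, ¬ (p : ℤ) ∣ f.eval n ∧ ∀ j, ¬ (p : ℤ) ∣ (g j).eval n) :
    ∃ nst : ℤ, (∀ p : ℕ, p.Prime → p ≤ k → ¬ (p : ℤ) ∣ f.eval nst) ∧
      ∀ j, ∀ p : ℕ, p.Prime → p ≤ k → ¬ (p : ℤ) ∣ (g j).eval nst := by
  choose! n hn using h
  obtain ⟨x, hx⟩ := Pool.Agent.H661R3.OP.t_CR {p : ℕ // p ∈ Nat.primesLE k}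
    (fun p => ((p : ℕ) : ℤ)) (fun p => n p) (by
      intro p q hpq
      have hp := (Nat.mem_primesLE.1 p.2).2
      have hq := (Nat.mem_primesLE.1 q.2).2
      exact Nat.isCoprime_iff_coprime.2 ((Nat.coprime_primes hp hq).2 fun h => hpq (Subtype.ext h)))
  have key : ∀ (u : ℤ[X]) (p : ℕ), p.Prime → p ≤ k → ¬ (p : ℤ) ∣ u.eval (n p) →
      ¬ (p : ℤ) ∣ u.eval x := by
    intro u p hp hpk hu hd
    have h1 := hx ⟨p, Nat.mem_primesLE.2 ⟨hpk, hp⟩⟩
    have h2 := h1.trans (sub_dvd_eval_sub x (n p) u)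
    exact hu ((dvd_sub_right hd).1 h2)
  exact ⟨x, fun p hp hpk => key f p hp hpk (hn p hp).1,
    fun j p hp hpk => key (g j) p hp hpk ((hn p hp).2 j)⟩

/-- square roots modulo the primes that are 1 modulo `4 |D|` -/
theorem sq_prime (D : ℤ) (hD : D ≠ 0) (p : ℕ) (hp : p.Prime)
    (h : ((4 * D.natAbs : ℕ) : ℤ) ∣ (p : ℤ) - 1) : ∃ ρ : ℤ, (p : ℤ) ∣ ρ ^ 2 - D := by
  have : Fact p.Prime := ⟨hp⟩
  have hDn : 0 < D.natAbs := Int.natAbs_pos.2 hD
  have h1 : (4 * D.natAbs) ∣ p - 1 := by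
    have h2 : ((p : ℤ) - 1) = ((p - 1 : ℕ) : ℤ) := by
      have := hp.one_lt
      omega
    rw [h2] at h
    exact Int.natCast_dvd_natCast.1 h
  have hmod : p % (4 * D.natAbs) = 1 := by
    obtain ⟨z, hz⟩ := h1
    have h3 : p = 1 + 4 * D.natAbs * z := by
      have := hp.one_lt
      omega
    rw [h3, Nat.add_mul_mod_self_left, Nat.mod_eq_of_lt (by omega)]
  have hodd : Odd p := by
    refine hp.odd_of_ne_two ?_
    rintro rfl
    have : 2 % (4 * D.natAbs) = 2 := Nat.mod_eq_of_lt (by omega)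
    omega
  have hJ : jacobiSym D p = 1 := by
    rw [jacobiSym.mod_right D hodd, hmod, jacobiSym.one_right]
  rw [← jacobiSym.legendreSym.to_jacobiSym] at hJ
  have hD0 : ((D : ℤ) : ZMod p) ≠ 0 := by
    intro h0
    rw [(legendreSym.eq_zero_iff p D).2 h0] at hJ
    exact zero_ne_one hJ
  obtain ⟨x, hx⟩ := (legendreSym.eq_one_iff p hD0).1 hJ
  obtain ⟨ρ, hρ⟩ := ZMod.intCast_surjective x
  refine ⟨ρ, ?_⟩
  rw [← ZMod.intCast_zmod_eq_zero_iff_dvd]
  push_cast
  rw [hρ, hx]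
  ring

/-- square roots modulo products -/
theorem sq_prod {κ : Type} [Fintype κ] (m : κ → ℤ) (E : ℤ)
    (hc : ∀ i j, i ≠ j → IsCoprime (m i) (m j)) (h : ∀ i, ∃ ρ : ℤ, m i ∣ ρ ^ 2 - E) :
    ∃ ρ : ℤ, ∏ i, m i ∣ ρ ^ 2 - E := by
  choose r hr using h
  obtain ⟨x, hx⟩ := Pool.Agent.H661R3.OP.t_CR κ m r hc
  refine ⟨x, Finset.prod_dvd_of_coprime ?_ ?_⟩
  · intro i _ j _ hij
    exact hc i j hij
  · intro i _
    have : x ^ 2 - E = (x - r i) * (x + r i) + (r i ^ 2 - E) := by ring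
    rw [this]
    exact dvd_add ((hx i).mul_right _) (hr i)

/-- the number of prime factors of a rough number -/
theorem cardFactors_le {Y N R : ℕ} (hY : 1 ≤ Y) (hN : N ≠ 0) (hr : Rough Y (N : ℤ))
    (hlt : N < Y ^ (R + 1)) : ArithmeticFunction.cardFactors N ≤ R := by
  rw [ArithmeticFunction.cardFactors_apply]
  have h1 : Y ^ N.primeFactorsList.length ≤ N := by
    calc Y ^ N.primeFactorsList.length ≤ N.primeFactorsList.prod := by
          apply List.pow_card_le_prod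
          intro p hp
          have hpp := Nat.prime_of_mem_primeFactorsList hp
          have hpd := Nat.dvd_of_mem_primeFactorsList hp
          by_contra hlt
          exact hr p hpp (by omega) (Int.natCast_dvd_natCast.2 hpd)
      _ = N := Nat.prod_primeFactorsList hN
  by_contra hcon
  have h2 : Y ^ (R + 1) ≤ Y ^ N.primeFactorsList.length := Nat.pow_le_pow_right hY (by omega)
  omega

theorem card_divisors_le (N : ℕ) (hN : N ≠ 0) :
    N.divisors.card ≤ 2 ^ ArithmeticFunction.cardFactors N := by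
  rw [Nat.card_divisors hN, ArithmeticFunction.cardFactors_eq_sum_factorization, Finsupp.sum,
    Nat.support_factorization, ← Finset.prod_pow_eq_pow_sum]
  exact Finset.prod_le_prod' fun q _ => Nat.lt_two_pow_self

end Pool.Agent.TH423.DS
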