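import Pool.Agent.TH423.DS.Family

/-!
Existence of a rough member of the family.
-/

set_option autoImplicit false

open Finset Polynomial

namespace Pool.Agent.TH423.DS

open Pool.Agent.H661R3.OP (Rough)

theorem zmod_dvd (l : ℕ) (x : ℤ) : (l : ℤ) ∣ x ↔ ((x : ℤ) : ZMod l) = 0 :=
  (ZMod.intCast_zmod_eq_zero_iff_dvd x l).symm

theorem eval_cast (l : ℕ) (g : ℤ[X]) (n : ℤ) :
    ((g.eval n : ℤ) : ZMod l) = (g.map (Int.castRingHom (ZMod l))).eval (n : ZMod l) := by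
  rw [Polynomial.eval_intCast_map]
  simp

theorem map_ne_zero_of {l : ℕ} (g : ℤ[X]) (h : ∃ n : ℤ, ¬ (l : ℤ) ∣ g.eval n) :
    g.map (Int.castRingHom (ZMod l)) ≠ 0 := by
  obtain ⟨n, hn⟩ := h
  intro h0
  apply hn
  rw [zmod_dvd, eval_cast, h0, eval_zero]

theorem isCoprime_of_rough {Y : ℕ} {M x : ℤ} (hM : Rough Y M) (hx : ∀ p : ℕ, p.Prime →
    (p : ℤ) ∣ x → p ≤ Y) : IsCoprime M x := by
  rw [Int.isCoprime_iff_gcd_eq_one]
  by_contra hne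
  obtain ⟨p, hp, hdvd⟩ := Nat.exists_prime_and_dvd hne
  have h1 : (p : ℤ) ∣ M := (Int.natCast_dvd_natCast.2 hdvd).trans (Int.gcd_dvd_left _ _)
  have h2 : (p : ℤ) ∣ x := (Int.natCast_dvd_natCast.2 hdvd).trans (Int.gcd_dvd_right _ _)
  exact hM p hp (hx p hp h2) h1

/-- the conditions modulo a large prime -/
theorem large (a b : ℤ) (g : ℤ[X]) (Lp M W m0 u w D : ℤ) (l : ℕ) (hl : l.Prime)
    (hgl : ∃ n : ℤ, ¬ (l : ℤ) ∣ g.eval n)
    (hW : W = a * (2 * Lp) ^ 2) (huw : u * w = M) (hMl : ¬ (l : ℤ) ∣ M) (hWl : ¬ (l : ℤ) ∣ W)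
    (H n y : ℕ → ℤ) (hH : ∀ t : ℕ, (m0 + t * (M * W)) ^ 2 - Lp ^ 2 * D = M * H t)
    (hn : ∀ t : ℕ, a * (2 * Lp) * n t = (m0 + t * (M * W)) - u - b * Lp)
    (hy : ∀ t : ℕ, a * (2 * Lp) ^ 2 * y t = u - 2 * (m0 + t * (M * W)) + w * H t) :
    (∃ h : Polynomial (ZMod l), h ≠ 0 ∧ h.natDegree ≤ 2 ∧
      ∀ t : ℕ, ((l : ℤ) ∣ H t ↔ h.eval (t : ZMod l) = 0)) ∧
    (∃ h : Polynomial (ZMod l), h ≠ 0 ∧ h.natDegree ≤ 2 ∧
      ∀ t : ℕ, ((l : ℤ) ∣ y t ↔ h.eval (t : ZMod l) = 0)) ∧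
    (∃ h : Polynomial (ZMod l), h ≠ 0 ∧ h.natDegree ≤ g.natDegree ∧
      ∀ t : ℕ, ((l : ℤ) ∣ g.eval (n t) ↔ h.eval (t : ZMod l) = 0)) ∧
    (∃ h : Polynomial (ZMod l), h ≠ 0 ∧ h.natDegree ≤ g.natDegree * 2 ∧
      ∀ t : ℕ, ((l : ℤ) ∣ g.eval (n t + 2 * Lp * y t) ↔ h.eval (t : ZMod l) = 0)) := by
  have : Fact l.Prime := ⟨hl⟩
  rw [zmod_dvd] at hMl hWl
  have hul : (u : ZMod l) ≠ 0 := by
    intro h
    apply hMl
    rw [← huw]
    push_cast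
    rw [h, zero_mul]
  have haL : (a : ZMod l) * (2 * (Lp : ZMod l)) ≠ 0 := by
    intro h
    apply hWl
    rw [hW]
    push_cast
    linear_combination (2 * (Lp : ZMod l)) * h
  have hμ : (M : ZMod l) * (W : ZMod l) ≠ 0 := mul_ne_zero hMl hWl
  have hHl : ∀ t : ℕ, ((m0 : ZMod l) + (t : ZMod l) * ((M : ZMod l) * (W : ZMod l))) ^ 2 -
      (Lp : ZMod l) ^ 2 * (D : ZMod l) = (M : ZMod l) * (H t : ZMod l) := by
    intro t; have := congrArg (Int.cast : ℤ → ZMod l) (hH t); push_cast at this; exact this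
  have hnl : ∀ t : ℕ, (a : ZMod l) * (2 * (Lp : ZMod l)) * (n t : ZMod l) =
      ((m0 : ZMod l) + (t : ZMod l) * ((M : ZMod l) * (W : ZMod l))) - (u : ZMod l) -
        (b : ZMod l) * (Lp : ZMod l) := by
    intro t; have := congrArg (Int.cast : ℤ → ZMod l) (hn t); push_cast at this; exact this
  have hyl : ∀ t : ℕ, (W : ZMod l) * (y t : ZMod l) =
      (u : ZMod l) - 2 * ((m0 : ZMod l) + (t : ZMod l) * ((M : ZMod l) * (W : ZMod l))) +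
        (w : ZMod l) * (H t : ZMod l) := by
    intro t; have := congrArg (Int.cast : ℤ → ZMod l) (hy t)
    rw [hW]; push_cast at this ⊢
    rw [hW] at this; push_cast at this
    exact this
  have huwl : (u : ZMod l) * (w : ZMod l) = (M : ZMod l) := by
    have := congrArg (Int.cast : ℤ → ZMod l) huw; push_cast at this; exact this
  have hWl' : (W : ZMod l) = (a : ZMod l) * (2 * (Lp : ZMod l)) ^ 2 := by
    rw [hW]; push_cast; ring
  have hg0 := map_ne_zero_of g hgl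
  refine ⟨?_, ?_, ?_, ?_⟩
  · obtain ⟨h, h0, h1, h2⟩ := pol_sq ((M : ZMod l) * (W : ZMod l)) (m0 : ZMod l) 0
      ((Lp : ZMod l) ^ 2 * (D : ZMod l)) hμ
    refine ⟨h, h0, h1, fun t => ?_⟩
    rw [h2, sub_zero, hHl, zmod_dvd, mul_eq_zero]
    simp [hMl]
  · obtain ⟨h, h0, h1, h2⟩ := pol_sq ((M : ZMod l) * (W : ZMod l)) (m0 : ZMod l) (u : ZMod l)
      ((Lp : ZMod l) ^ 2 * (D : ZMod l)) hμ
    refine ⟨h, h0, h1, fun t => ?_⟩
    have e1 : ((m0 : ZMod l) + (t : ZMod l) * ((M : ZMod l) * (W : ZMod l)) - (u : ZMod l)) ^ 2 -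
        (Lp : ZMod l) ^ 2 * (D : ZMod l) = (u : ZMod l) * (W : ZMod l) * (y t : ZMod l) := by
      rw [mul_assoc, hyl t]
      linear_combination hHl t - (H t : ZMod l) * huwl
    rw [h2, e1, zmod_dvd, mul_eq_zero, mul_eq_zero]
    simp [hul, hWl]
  · obtain ⟨κ, hκ⟩ : ∃ κ : ZMod l, (a : ZMod l) * (2 * (Lp : ZMod l)) * κ = 1 :=
      ⟨_, mul_inv_cancel₀ haL⟩
    have hκ0 : κ ≠ 0 := by rintro rfl; rw [mul_zero] at hκ; exact zero_ne_one hκ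
    obtain ⟨h, h0, h1, h2⟩ := pol_lin _ hg0 ((M : ZMod l) * (W : ZMod l)) (m0 : ZMod l) κ
      ((u : ZMod l) + (b : ZMod l) * (Lp : ZMod l)) hμ hκ0
    refine ⟨h, h0, h1.trans natDegree_map_le, fun t => ?_⟩
    rw [h2, zmod_dvd, eval_cast]
    have e1 : (n t : ZMod l) = κ * ((m0 : ZMod l) + (t : ZMod l) * ((M : ZMod l) * (W : ZMod l)) -
        ((u : ZMod l) + (b : ZMod l) * (Lp : ZMod l))) := by
      linear_combination -(n t : ZMod l) * hκ + κ * hnl t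
    rw [e1]
  · obtain ⟨κ, hκ⟩ : ∃ κ : ZMod l, (a : ZMod l) * (2 * (Lp : ZMod l)) * (u : ZMod l) * κ = 1 :=
      ⟨_, mul_inv_cancel₀ (mul_ne_zero haL hul)⟩
    have hκ0 : κ ≠ 0 := by rintro rfl; rw [mul_zero] at hκ; exact zero_ne_one hκ
    obtain ⟨h, h0, h1, h2⟩ := pol_quad _ hg0 ((M : ZMod l) * (W : ZMod l)) (m0 : ZMod l) κ
      (u : ZMod l) ((Lp : ZMod l) ^ 2 * (D : ZMod l) + (u : ZMod l) * (b : ZMod l) * (Lp : ZMod l))
      hμ hκ0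
    refine ⟨h, h0, h1.trans (Nat.mul_le_mul_right _ natDegree_map_le), fun t => ?_⟩
    rw [h2, zmod_dvd, eval_cast]
    have e7 : (a : ZMod l) * (2 * (Lp : ZMod l)) *
        ((n t : ZMod l) + 2 * (Lp : ZMod l) * (y t : ZMod l)) =
        (w : ZMod l) * (H t : ZMod l) -
          ((m0 : ZMod l) + (t : ZMod l) * ((M : ZMod l) * (W : ZMod l))) -
          (b : ZMod l) * (Lp : ZMod l) := by
      linear_combination hnl t + hyl t - (y t : ZMod l) * hWl'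
    have e8 : (a : ZMod l) * (2 * (Lp : ZMod l)) * (u : ZMod l) *
        ((n t : ZMod l) + 2 * (Lp : ZMod l) * (y t : ZMod l)) =
        ((m0 : ZMod l) + (t : ZMod l) * ((M : ZMod l) * (W : ZMod l))) ^ 2 -
          (u : ZMod l) * ((m0 : ZMod l) + (t : ZMod l) * ((M : ZMod l) * (W : ZMod l))) -
          ((Lp : ZMod l) ^ 2 * (D : ZMod l) + (u : ZMod l) * (b : ZMod l) * (Lp : ZMod l)) := by
      linear_combination (u : ZMod l) * e7 - hHl t + (H t : ZMod l) * huwl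
    have e1 : ((n t + 2 * Lp * y t : ℤ) : ZMod l) =
        κ * (((m0 : ZMod l) + (t : ZMod l) * ((M : ZMod l) * (W : ZMod l))) ^ 2 -
          (u : ZMod l) * ((m0 : ZMod l) + (t : ZMod l) * ((M : ZMod l) * (W : ZMod l))) -
          ((Lp : ZMod l) ^ 2 * (D : ZMod l) + (u : ZMod l) * (b : ZMod l) * (Lp : ZMod l))) := by
      push_cast
      linear_combination (-((n t : ZMod l) + 2 * (Lp : ZMod l) * (y t : ZMod l))) * hκ + κ * e8
    rw [e1]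

/-- the conditions modulo a small prime -/
theorem small (a b c : ℤ) (g : ℤ[X]) (Lp M u m H n y nst : ℤ) (l : ℕ) (hl : l.Prime)
    (hlL : (l : ℤ) ∣ Lp) (hf : ¬ (l : ℤ) ∣ a * nst ^ 2 + b * nst + c)
    (hg : ¬ (l : ℤ) ∣ g.eval nst)
    (hm : a * (2 * Lp) ^ 2 ∣ m - (Lp * (2 * a * nst + b) + 1))
    (hH : m ^ 2 - Lp ^ 2 * (b ^ 2 - 4 * a * c) = M * H)
    (hn : 2 * Lp ∣ n - nst) (hval : a * n ^ 2 + b * n + c = u * y) :
    ¬ (l : ℤ) ∣ H ∧ ¬ (l : ℤ) ∣ y ∧ ¬ (l : ℤ) ∣ g.eval n ∧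
      ¬ (l : ℤ) ∣ g.eval (n + 2 * Lp * y) := by
  have hn1 : (l : ℤ) ∣ 2 * Lp := hlL.mul_left _
  have h2 : (l : ℤ) ∣ n - nst := hn1.trans hn
  refine ⟨fun h => ?_, fun h => ?_, fun h => ?_, fun h => ?_⟩
  · have h1 : (l : ℤ) ∣ m ^ 2 - Lp ^ 2 * (b ^ 2 - 4 * a * c) := by rw [hH]; exact h.mul_left _
    obtain ⟨z, hz⟩ := hm
    have h2 : (l : ℤ) ∣ m - 1 := by
      have : m - 1 = Lp * ((2 * a * nst + b) + 4 * a * Lp * z) := by
        linear_combination hz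
      rw [this]
      exact hlL.mul_right _
    have h3 : (l : ℤ) ∣ 1 := by
      have : (1 : ℤ) = (m ^ 2 - Lp ^ 2 * (b ^ 2 - 4 * a * c)) - (m - 1) * (m + 1) +
        Lp * (Lp * (b ^ 2 - 4 * a * c)) := by ring
      rw [this]
      exact dvd_add (dvd_sub h1 (h2.mul_right _)) (hlL.mul_right _)
    have h4 := Int.le_of_dvd one_pos h3
    have := hl.two_le
    omega
  · have h1 : (l : ℤ) ∣ a * n ^ 2 + b * n + c := by
      rw [hval]; exact h.mul_left _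
    apply hf
    have : a * nst ^ 2 + b * nst + c = (a * n ^ 2 + b * n + c) -
      (n - nst) * (a * (n + nst) + b) := by ring
    rw [this]
    exact dvd_sub h1 (h2.mul_right _)
  · have h3 := h2.trans (sub_dvd_eval_sub n nst g)
    exact hg ((dvd_sub_right h).1 h3)
  · have h2' : (l : ℤ) ∣ n + 2 * Lp * y - nst := by
      have : n + 2 * Lp * y - nst = (n - nst) + 2 * Lp * y := by ring
      rw [this]
      exact dvd_add h2 (hn1.mul_right _)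
    have h3 := h2'.trans (sub_dvd_eval_sub (n + 2 * Lp * y) nst g)
    exact hg ((dvd_sub_right h).1 h3)

theorem family (a b c : ℤ) (ha : 0 < a) {s : ℕ} (g : Fin s → ℤ[X]) (k : ℕ) (hk1 : 1 ≤ k)
    (Lp : ℤ) (hLp : 0 < Lp) (hLpd : ∀ p : ℕ, p.Prime → ((p : ℤ) ∣ Lp ↔ p ≤ 2 * k))
    (hak : a ≤ k) (nst : ℤ)
    (hf : ∀ p : ℕ, p.Prime → p ≤ 2 * k → ¬ (p : ℤ) ∣ a * nst ^ 2 + b * nst + c)
    (hg : ∀ j, ∀ p : ℕ, p.Prime → p ≤ 2 * k → ¬ (p : ℤ) ∣ (g j).eval nst)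
    (hgne : ∀ j, ∀ p : ℕ, p.Prime → ∃ n : ℤ, ¬ (p : ℤ) ∣ (g j).eval n) :
    ∃ C : ℕ, ∀ (ι : Type) [Fintype ι] [Nonempty ι],
    2 + Fintype.card ι * 2 + Fintype.card ι * (3 * ∑ j, (g j).natDegree) ≤ k →
    ∀ Y : ℕ, 2 ≤ Y → 2 * k ≤ Y → ∀ (M : ℤ) (u w : ι → ℤ), 0 < M → Rough Y M →
    |b ^ 2 - 4 * a * c| ≤ M → |b| ≤ M → (∀ A, 0 < u A ∧ 0 < w A ∧ u A * w A = M) →
    (∀ A, a * (2 * Lp) ^ 2 ∣ u A - 1) → ∀ ρ : ℤ, M ∣ ρ ^ 2 - Lp ^ 2 * (b ^ 2 - 4 * a * c) →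
    ∃ m H : ℤ, 0 < m ∧ m ≤ (Y ^ C + 2) * (M * (a * (2 * Lp) ^ 2)) ∧
      m ^ 2 - Lp ^ 2 * (b ^ 2 - 4 * a * c) = M * H ∧ 0 < H ∧ M * H ≤ 2 * m ^ 2 ∧ Rough Y H ∧
      ∀ A, ∃ n y : ℤ, a * (2 * Lp) * n = m - u A - b * Lp ∧
        a * (2 * Lp) ^ 2 * y = u A - 2 * m + w A * H ∧ 0 < n ∧ 0 < y ∧
        Rough Y y ∧ (∀ j, Rough Y ((g j).eval n)) ∧
        (∀ j, Rough Y ((g j).eval (n + 2 * Lp * y))) := by
  classical
  obtain ⟨Cs, hCs⟩ := sieve_poly k hk1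
  refine ⟨Cs, ?_⟩
  intro ι _ _ hk Y hY hkY M u w hM hMr hDM hbM huw hu ρ hρ
  set D : ℤ := b ^ 2 - 4 * a * c with hDdef
  set W : ℤ := a * (2 * Lp) ^ 2 with hWdef
  have hW0 : 0 < W := by positivity
  -- primes dividing `W` are small
  have hWp : ∀ p : ℕ, p.Prime → (p : ℤ) ∣ W → p ≤ 2 * k := by
    intro p hp hdvd
    have hpp : Prime (p : ℤ) := Nat.prime_iff_prime_int.1 hp
    rcases hpp.dvd_or_dvd hdvd with h | h
    · have := Int.le_of_dvd ha h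
      omega
    · have h2 := hpp.dvd_of_dvd_pow h
      rcases hpp.dvd_or_dvd h2 with h | h
      · have := Int.le_of_dvd (by norm_num) h
        omega
      · exact (hLpd p hp).1 h
  have hcop : IsCoprime M W := isCoprime_of_rough hMr fun p hp h => (hWp p hp h).trans hkY
  -- the starting point
  obtain ⟨x, hx1, hx2⟩ : ∃ x : ℤ, M ∣ x - ρ ∧ W ∣ x - (Lp * (2 * a * nst + b) + 1) := by
    obtain ⟨α, β, hαβ⟩ := hcop
    refine ⟨α * M * (Lp * (2 * a * nst + b) + 1) + β * W * ρ, ?_, ?_⟩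
    · refine ⟨α * (Lp * (2 * a * nst + b) + 1) - α * ρ, ?_⟩
      linear_combination -ρ * hαβ + 2 * (ρ * hαβ)
    · refine ⟨β * ρ - β * (Lp * (2 * a * nst + b) + 1), ?_⟩
      linear_combination (Lp * (2 * a * nst + b) + 1) * hαβ
  have hMW : 0 < M * W := by positivity
  obtain ⟨m0, hm0x, hm0lo, hm0hi⟩ : ∃ m0 : ℤ, M * W ∣ m0 - x ∧ M * W ≤ m0 ∧
      m0 < 2 * (M * W) := by
    refine ⟨x % (M * W) + M * W, ⟨1 - x / (M * W), ?_⟩, ?_, ?_⟩
    · have := Int.emod_add_mul_ediv x (M * W)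
      linear_combination this
    · have := Int.emod_nonneg x hMW.ne'
      linarith
    · have := Int.emod_lt_of_pos x hMW
      linarith
  have hmtρ : ∀ t : ℕ, M ∣ (m0 + t * (M * W)) ^ 2 - Lp ^ 2 * D := by
    intro t
    have h1 : M ∣ (m0 + t * (M * W)) - ρ := by
      have h2 : M ∣ m0 - x := (Dvd.intro _ rfl).trans hm0x
      have h3 : (m0 + t * (M * W)) - ρ = (m0 - x) + (x - ρ) + t * (M * W) := by ring
      rw [h3]
      exact dvd_add (dvd_add h2 hx1) (Dvd.intro (t * W) (by ring))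
    have h4 : (m0 + t * (M * W)) ^ 2 - Lp ^ 2 * D =
        ((m0 + t * (M * W)) - ρ) * ((m0 + t * (M * W)) + ρ) + (ρ ^ 2 - Lp ^ 2 * D) := by ring
    rw [h4]
    exact dvd_add (h1.mul_right _) hρ
  have hmtW : ∀ t : ℕ, W ∣ (m0 + t * (M * W)) - (Lp * (2 * a * nst + b) + 1) := by
    intro t
    have h2 : W ∣ m0 - x := (Dvd.intro_left _ rfl).trans hm0x
    have h3 : (m0 + t * (M * W)) - (Lp * (2 * a * nst + b) + 1) =
        (m0 - x) + (x - (Lp * (2 * a * nst + b) + 1)) + t * (M * W) := by ring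
    rw [h3]
    exact dvd_add (dvd_add h2 hx2) (Dvd.intro (t * M) (by ring))
  choose Hf hHf using hmtρ
  have halg : ∀ (t : ℕ) A, ∃ n y : ℤ, 2 * Lp ∣ n - nst ∧
      a * (2 * Lp) * n = (m0 + t * (M * W)) - u A - b * Lp ∧
      a * (2 * Lp) ^ 2 * y = u A - 2 * (m0 + t * (M * W)) + w A * Hf t := fun t A =>
    alg a b c Lp _ (u A) (w A) (Hf t) M nst (huw A).2.2 (hHf t) (hu A) (hmtW t)
  choose nf yf hnst hnf hyf using halg
  have hval := fun (t : ℕ) A => values a b c Lp _ (u A) (w A) (Hf t) M (nf t A) (yf t A) ha hLp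
    (huw A).2.2 (hHf t) (hnf t A) (hyf t A)
  set v : (Unit ⊕ ι ⊕ (ι × Fin s) ⊕ (ι × Fin s)) → ℕ → ℤ :=
    Sum.elim (fun _ t => Hf t) (Sum.elim (fun A t => yf t A)
      (Sum.elim (fun Aj t => (g Aj.2).eval (nf t Aj.1))
        (fun Aj t => (g Aj.2).eval (nf t Aj.1 + 2 * Lp * yf t Aj.1)))) with hv
  set e : (Unit ⊕ ι ⊕ (ι × Fin s) ⊕ (ι × Fin s)) → ℕ :=
    Sum.elim (fun _ => 2) (Sum.elim (fun _ => 2)
      (Sum.elim (fun Aj => (g Aj.2).natDegree) (fun Aj => (g Aj.2).natDegree * 2))) with he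
  have hsum : ∑ i, e i ≤ k := by
    refine le_trans (le_of_eq ?_) hk
    rw [he, Fintype.sum_sum_type, Fintype.sum_sum_type, Fintype.sum_sum_type]
    simp only [Sum.elim_inl, Sum.elim_inr, Finset.sum_const, Finset.card_univ, Fintype.card_unit,
      smul_eq_mul, Fintype.sum_prod_type, ← Finset.sum_mul]
    ring
  obtain ⟨A0⟩ := ‹Nonempty ι›
  have hlg := fun (A : ι) (j : ℤ[X]) (l : ℕ) (hl : l.Prime) (hj : ∃ n : ℤ, ¬ (l : ℤ) ∣ j.eval n)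
      (hlY : l ≤ Y) (hlk : 2 * k < l) =>
    large a b j Lp M W m0 (u A) (w A) D l hl hj hWdef (huw A).2.2 (hMr l hl hlY)
      (fun h => by have := hWp l hl h; omega) Hf (fun t => nf t A) (fun t => yf t A) hHf
      (fun t => hnf t A) (fun t => hyf t A)
  have hone : ∀ l : ℕ, l.Prime → ∃ n : ℤ, ¬ (l : ℤ) ∣ (1 : ℤ[X]).eval n := by
    intro l hl
    refine ⟨0, ?_⟩
    rw [eval_one]
    intro h
    have h4 := Int.le_of_dvd one_pos h
    have := hl.two_le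
    omega
  have hlarge : ∀ i, ∀ l : ℕ, l.Prime → l ≤ Y → 2 * k < l → ∃ h : Polynomial (ZMod l), h ≠ 0 ∧
      h.natDegree ≤ e i ∧ ∀ t : ℕ, ((l : ℤ) ∣ v i t ↔ h.eval (t : ZMod l) = 0) := by
    intro i l hl hlY hlk
    rcases i with _ | A | ⟨A, j⟩ | ⟨A, j⟩
    · exact (hlg A0 1 l hl (hone l hl) hlY hlk).1
    · exact (hlg A 1 l hl (hone l hl) hlY hlk).2.1
    · exact (hlg A (g j) l hl (hgne j l hl) hlY hlk).2.2.1
    · exact (hlg A (g j) l hl (hgne j l hl) hlY hlk).2.2.2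
  have hsmall : ∀ i, ∀ l : ℕ, l.Prime → l ≤ Y → l ≤ 2 * k → ∀ t : ℕ, ¬ (l : ℤ) ∣ v i t := by
    intro i l hl hlY hlk t
    have hlL : (l : ℤ) ∣ Lp := (hLpd l hl).2 hlk
    have hsm := fun (A : ι) (j : ℤ[X]) (hj : ¬ (l : ℤ) ∣ j.eval nst) =>
      small a b c j Lp M (u A) _ (Hf t) (nf t A) (yf t A) nst l hl hlL (hf l hl hlk) hj
        (hmtW t) (hHf t) (hnst t A) (hval t A).1
    have h1 : ¬ (l : ℤ) ∣ (1 : ℤ[X]).eval nst := by
      rw [eval_one]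
      intro h
      have h4 := Int.le_of_dvd one_pos h
      have := hl.two_le
      omega
    rcases i with _ | A | ⟨A, j⟩ | ⟨A, j⟩
    · exact (hsm A0 1 h1).1
    · exact (hsm A 1 h1).2.1
    · exact (hsm A (g j) (hg j l hl hlk)).2.2.1
    · exact (hsm A (g j) (hg j l hl hlk)).2.2.2
  have hfin := hCs _ v e Y hY hsum hlarge hsmall (Y ^ Cs) le_rfl
  have hpos : 0 < Y ^ Cs := by positivity
  obtain ⟨t, ht⟩ : ((range (Y ^ Cs)).filter (fun t => ∀ i, Rough Y (v i t))).Nonempty := by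
    rw [← Finset.card_pos]
    by_contra h
    have : ((range (Y ^ Cs)).filter (fun t => ∀ i, Rough Y (v i t))).card = 0 := by omega
    rw [this] at hfin
    omega
  rw [mem_filter, mem_range] at ht
  obtain ⟨htT, htr⟩ := ht
  have hmlo : M * W ≤ m0 + t * (M * W) := by
    have : (0 : ℤ) ≤ t * (M * W) := by positivity
    linarith
  have hmhi : m0 + t * (M * W) ≤ (Y ^ Cs + 2) * (M * W) := by
    have h1 : (t : ℤ) ≤ (Y : ℤ) ^ Cs := by exact_mod_cast htT.le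
    have h2 := mul_le_mul_of_nonneg_right h1 hMW.le
    linarith
  have hsz := fun A => sizes a b c Lp _ (u A) (w A) (Hf t) M (nf t A) (yf t A) ha hLp hM
    (huw A).1 (huw A).2.1 (huw A).2.2 hDM hbM hmlo (hHf t) (hnf t A) (hyf t A)
  refine ⟨m0 + t * (M * W), Hf t, (hsz A0).1, hmhi, hHf t, ?_, (hsz A0).2.2.2.2,
    htr (Sum.inl ()), fun A => ?_⟩
  · have := (hsz A0).1
    have := (hsz A0).2.1
    linarith
  refine ⟨nf t A, yf t A, hnf t A, hyf t A, (hsz A).2.2.1, (hsz A).2.2.2.1,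
    htr (Sum.inr (Sum.inl A)), fun j => htr (Sum.inr (Sum.inr (Sum.inl (A, j)))),
    fun j => htr (Sum.inr (Sum.inr (Sum.inr (A, j))))⟩

end Pool.Agent.TH423.DS
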