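import Pool.Agent.TH423.DS.Count

/-! The theorem in terms of `X ^ δ`. -/

set_option autoImplicit false

open Finset Polynomial Filter Topology

namespace Pool.Agent.TH423.DS

open Pool.Agent.H661R3.OP (Rough)

/-- bounds for polynomials -/
theorem poly_bound (g : ℤ[X]) : ∃ B X₀ : ℕ, ∀ X : ℕ, X₀ ≤ X → ∀ n : ℕ, n ≤ X →
    |g.eval (n : ℤ)| ≤ (X : ℤ) ^ B := by
  obtain ⟨c, hc⟩ : ∃ c : ℕ, c = ∑ i ∈ range (g.natDegree + 1), (g.coeff i).natAbs := ⟨_, rfl⟩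
  refine ⟨g.natDegree + 1, max c 1, fun X hX n hn => ?_⟩
  have hX1 : 1 ≤ X := le_trans (le_max_right _ _) hX
  have hXc : c ≤ X := le_trans (le_max_left _ _) hX
  rw [eval_eq_sum_range]
  have hX1' : (1 : ℤ) ≤ X := by exact_mod_cast hX1
  calc |∑ i ∈ range (g.natDegree + 1), g.coeff i * (n : ℤ) ^ i|
      ≤ ∑ i ∈ range (g.natDegree + 1), |g.coeff i * (n : ℤ) ^ i| := abs_sum_le_sum_abs _ _
    _ ≤ ∑ i ∈ range (g.natDegree + 1), |g.coeff i| * (X : ℤ) ^ g.natDegree := by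
        apply sum_le_sum
        intro i hi
        rw [mem_range] at hi
        rw [abs_mul]
        apply mul_le_mul_of_nonneg_left _ (abs_nonneg _)
        rw [abs_of_nonneg (by positivity)]
        calc (n : ℤ) ^ i ≤ (X : ℤ) ^ i := pow_le_pow_left₀ (by positivity) (by exact_mod_cast hn) _
          _ ≤ (X : ℤ) ^ g.natDegree := pow_le_pow_right₀ hX1' (by omega)
    _ = (c : ℤ) * (X : ℤ) ^ g.natDegree := by
        rw [← sum_mul, hc]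
        congr 1
        push_cast
        exact sum_congr rfl fun i _ => rfl
    _ ≤ (X : ℤ) * (X : ℤ) ^ g.natDegree :=
        mul_le_mul_of_nonneg_right (by exact_mod_cast hXc) (by positivity)
    _ = (X : ℤ) ^ (g.natDegree + 1) := by ring

theorem poly_bounds {s : ℕ} (g : Fin s → ℤ[X]) : ∃ B X₀ : ℕ, ∀ X : ℕ, X₀ ≤ X → ∀ n : ℕ, n ≤ X →
    ∀ j, |(g j).eval (n : ℤ)| ≤ (X : ℤ) ^ B := by
  choose B X₀ h using fun j => poly_bound (g j)
  refine ⟨∑ j, B j, ∑ j, X₀ j + 1, fun X hX n hn j => ?_⟩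
  have h1 : X₀ j ≤ ∑ j, X₀ j := single_le_sum (f := X₀) (fun _ _ => Nat.zero_le _) (mem_univ j)
  have h2 : B j ≤ ∑ j, B j := single_le_sum (f := B) (fun _ _ => Nat.zero_le _) (mem_univ j)
  refine (h j X (by omega) n hn).trans ?_
  exact pow_le_pow_right₀ (by exact_mod_cast (by omega : 1 ≤ X)) h2

/-- a nonzero integer with at most `R` prime factors, all of them larger than `y` -/
def AlmostPrime (y : ℝ) (R : ℕ) (m : ℤ) : Prop :=
  m ≠ 0 ∧ (∀ p : ℕ, p.Prime → (p : ℤ) ∣ m → y < p) ∧ ArithmeticFunction.cardFactors m.natAbs ≤ R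

theorem almostPrime_of_rough {Y R : ℕ} {y : ℝ} {m : ℤ} (hY : 2 ≤ Y) (hy : y < Y + 1)
    (hr : Rough Y m) (hR : |m| < (Y : ℤ) ^ (R + 1)) : AlmostPrime y R m := by
  have hm : m ≠ 0 := by
    rintro rfl
    exact hr 2 Nat.prime_two hY (dvd_zero _)
  refine ⟨hm, fun p hp hd => ?_, ?_⟩
  · have h1 : Y < p := by
      by_contra hcon
      exact hr p hp (by omega) hd
    have : ((Y : ℝ) + 1) ≤ p := by exact_mod_cast h1
    linarith
  · refine cardFactors_le (by omega : 1 ≤ Y) (Int.natAbs_ne_zero.2 hm) ?_ ?_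
    · intro p hp hpY hd
      exact hr p hp hpY (by rwa [Int.dvd_natAbs] at hd)
    · zify
      exact_mod_cast hR

theorem main (a b c : ℤ) (ha : 0 < a) (hD : b ^ 2 - 4 * a * c ≠ 0) {s : ℕ} (g : Fin s → ℤ[X])
    (hadm : ∀ p : ℕ, p.Prime → ∃ n : ℤ, ¬ (p : ℤ) ∣ a * n ^ 2 + b * n + c ∧
      ∀ j, ¬ (p : ℤ) ∣ (g j).eval n) (r : ℕ) (ε : ℝ) (hε : 0 < ε) :
    ∃ q R X₀ : ℕ, ∃ δ : ℝ, 0 < q ∧ 0 < δ ∧ ∀ X : ℕ, X₀ ≤ X →
    (∃ P : Fin r → ℕ, Function.Injective P ∧ ∀ i, (P i).Prime ∧ (X : ℝ) ^ δ < P i ∧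
      (P i : ℝ) ≤ (X : ℝ) ^ (2 * δ) ∧ (q : ℤ) ∣ (P i : ℤ) - 1) ∧
    ∀ (Γ : Type) [AddCommGroup Γ] (F : ℕ → Γ),
    (∀ x y : ℕ, x ≠ 0 → y ≠ 0 → F (x * y) = F x + F y) → ∀ (S : Set Γ) (P : Fin r → ℕ),
    Function.Injective P → (∀ i, (P i).Prime ∧ (X : ℝ) ^ δ < P i ∧
      (P i : ℝ) ≤ (X : ℝ) ^ (2 * δ) ∧ (q : ℤ) ∣ (P i : ℤ) - 1) → Cube F S P →
    (X : ℝ) ^ (1 - ε) ≤ ({n : ℕ | 1 ≤ n ∧ n ≤ X ∧ 0 < a * (n : ℤ) ^ 2 + b * n + c ∧
      AlmostPrime ((X : ℝ) ^ δ) R (a * (n : ℤ) ^ 2 + b * n + c) ∧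
      (∀ j, AlmostPrime ((X : ℝ) ^ δ) R ((g j).eval (n : ℤ))) ∧
      F (a * (n : ℤ) ^ 2 + b * n + c).natAbs ∉ S}.ncard : ℝ) := by
  classical
  obtain ⟨q, C₂, Y₀, hq, hY₀, hcount⟩ := count a b c ha hD g hadm r
  obtain ⟨ε', hε'⟩ : ∃ ε' : ℝ, ε' = min ε (1 / 2) := ⟨_, rfl⟩
  have hε'0 : 0 < ε' := by rw [hε']; positivity
  have hε'ε : ε' ≤ ε := by rw [hε']; exact min_le_left _ _
  have hε'2 : ε' ≤ 1 / 2 := by rw [hε']; exact min_le_right _ _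
  obtain ⟨Z₀, hZ₀⟩ := primes_count q hq (ε' / 4) (by positivity)
  obtain ⟨Z₁, hZ₁⟩ := primes_count q hq (1 / 2) (by positivity)
  obtain ⟨B₁, X₁, hB₁⟩ := poly_bound (C a * X ^ 2 + C b * X + C c)
  obtain ⟨B₂, X₂, hB₂⟩ := poly_bounds g
  obtain ⟨δ, hδ⟩ : ∃ δ : ℝ, δ = ε' / (8 * (C₂ + 4)) := ⟨_, rfl⟩
  have hC4 : (0 : ℝ) < (C₂ : ℝ) + 4 := by positivity
  have hδ0 : 0 < δ := by rw [hδ]; positivity
  have hδC : δ * (C₂ + 4) = ε' / 8 := by rw [hδ]; field_simp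
  obtain ⟨t, ht⟩ := exists_nat_ge (2 / δ)
  have htδ : 2 ≤ t * δ := by rwa [div_le_iff₀ hδ0] at ht
  obtain ⟨R, hR⟩ : ∃ R : ℕ, R = t * (B₁ + B₂) := ⟨_, rfl⟩
  -- all the largeness conditions
  have hn : Tendsto (fun X : ℕ => (X : ℝ)) atTop atTop := tendsto_natCast_atTop_atTop
  have hn1 : Tendsto (fun X : ℕ => (X : ℝ) ^ (δ / 2)) atTop atTop :=
    (tendsto_rpow_atTop (by positivity)).comp hn
  have hn2 : Tendsto (fun X : ℕ => (X : ℝ) ^ (ε' / 2)) atTop atTop :=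
    (tendsto_rpow_atTop (by positivity)).comp hn
  have hev := ((hn1.eventually (eventually_ge_atTop ((Y₀ + Z₀ + Z₁ + r ^ 2 + 4 : ℕ) : ℝ))).and
    (hn2.eventually (eventually_ge_atTop ((2 : ℝ) ^ (r + 2 + R))))).and
    (eventually_ge_atTop (X₁ + X₂ + 2))
  obtain ⟨X₀, hX₀⟩ := eventually_atTop.1 hev
  refine ⟨q, R, X₀, δ, hq, hδ0, fun X hX => ?_⟩
  obtain ⟨⟨hA, hB⟩, hX12⟩ := hX₀ X hX
  have hX2 : (2 : ℝ) ≤ X := by exact_mod_cast (by omega : 2 ≤ X)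
  have hXp : (0 : ℝ) < X := by linarith
  obtain ⟨Y, hY⟩ : ∃ Y : ℕ, Y = ⌊(X : ℝ) ^ δ⌋₊ := ⟨_, rfl⟩
  have hsq : (X : ℝ) ^ (δ / 2) * (X : ℝ) ^ (δ / 2) = (X : ℝ) ^ δ := by
    rw [← Real.rpow_add hXp]; congr 1; ring
  obtain ⟨x, hx⟩ : ∃ x : ℝ, x = (X : ℝ) ^ (δ / 2) := ⟨_, rfl⟩
  rw [← hx] at hsq hA
  have hYle : (Y : ℝ) ≤ (X : ℝ) ^ δ := by
    rw [hY]; exact Nat.floor_le (by positivity)
  have hYlt : (X : ℝ) ^ δ < Y + 1 := by
    rw [hY]; exact Nat.lt_floor_add_one _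
  have hA4 : (4 : ℝ) ≤ x := by
    refine le_trans ?_ hA
    push_cast
    have : (0 : ℝ) ≤ (Y₀ : ℝ) + Z₀ + Z₁ + r ^ 2 := by positivity
    linarith
  have hxY : x ≤ Y := by
    have : x ≤ x * x - 1 := by nlinarith
    linarith
  have hYN : Y₀ + Z₀ + Z₁ + r ^ 2 + 4 ≤ Y := by exact_mod_cast hA.trans hxY
  have hY4 : (4 : ℝ) ≤ Y := hA4.trans hxY
  -- primes
  have hP2 : ∀ p : ℕ, (p : ℝ) ≤ (X : ℝ) ^ (2 * δ) → p ≤ Y ^ 3 := by
    intro p hp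
    have h1 : (X : ℝ) ^ (2 * δ) = ((X : ℝ) ^ δ) ^ 2 := by
      rw [← Real.rpow_natCast, ← Real.rpow_mul hXp.le]
      congr 1
      push_cast
      ring
    have h2 : ((X : ℝ) ^ δ) ^ 2 ≤ ((Y : ℝ) + 1) ^ 2 :=
      pow_le_pow_left₀ (by positivity) hYlt.le 2
    have h3 : ((Y : ℝ) + 1) ^ 2 ≤ (Y : ℝ) ^ 3 := by nlinarith [sq_nonneg ((Y : ℝ) - 4)]
    have h4 : (p : ℝ) ≤ (Y : ℝ) ^ 3 := by linarith
    exact_mod_cast h4
  refine ⟨?_, ?_⟩
  · have h1 := hZ₁ Y (by omega)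
    have h2 : (r : ℝ) ≤ (Y : ℝ) ^ (1 - 1 / 2 : ℝ) := by
      rw [show (1 - 1 / 2 : ℝ) = 1 / 2 by norm_num, ← Real.sqrt_eq_rpow]
      apply Real.le_sqrt_of_sq_le
      exact_mod_cast (by omega : r ^ 2 ≤ Y)
    have h3 : r ≤ ((Finset.Ioc Y (2 * Y)).filter
        (fun p : ℕ => p.Prime ∧ (q : ℤ) ∣ (p : ℤ) - 1)).card := by exact_mod_cast h2.trans h1
    refine ⟨Finset.orderEmbOfCardLe _ h3, (Finset.orderEmbOfCardLe _ h3).injective, fun i => ?_⟩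
    have h4 := Finset.orderEmbOfCardLe_mem _ h3 i
    rw [mem_filter, mem_Ioc] at h4
    refine ⟨h4.2.1, ?_, ?_, h4.2.2⟩
    · have : ((Y : ℝ) + 1) ≤ (Finset.orderEmbOfCardLe _ h3 i : ℕ) := by exact_mod_cast h4.1.1
      linarith
    · have h5 : ((Finset.orderEmbOfCardLe _ h3 i : ℕ) : ℝ) ≤ 2 * Y := by exact_mod_cast h4.1.2
      have h6 : (X : ℝ) ^ (2 * δ) = (X : ℝ) ^ δ * (X : ℝ) ^ δ := by
        rw [← Real.rpow_add hXp]; congr 1; ring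
      rw [h6]
      nlinarith
  · intro Γ _ F hF S P hinj hP hcube
    obtain ⟨Z, hZ⟩ : ∃ Z : ℕ, Z = X / Y ^ C₂ := ⟨_, rfl⟩
    have hYpos : 0 < Y ^ C₂ := by
      have : 0 < Y := by omega
      positivity
    have hYC3 : Y ^ (C₂ + 3) ≤ X := by
      have h1 : ((Y : ℝ)) ^ (C₂ + 3) ≤ X := by
        calc ((Y : ℝ)) ^ (C₂ + 3) ≤ ((X : ℝ) ^ δ) ^ (C₂ + 3) :=
              pow_le_pow_left₀ (by positivity) hYle _
          _ = (X : ℝ) ^ (δ * (C₂ + 3)) := by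
              rw [← Real.rpow_natCast, ← Real.rpow_mul hXp.le]
              push_cast
              ring_nf
          _ ≤ (X : ℝ) ^ (1 : ℝ) := by
              apply Real.rpow_le_rpow_of_exponent_le (by linarith)
              nlinarith
          _ = X := Real.rpow_one _
      exact_mod_cast h1
    have hYZ : Y ^ 3 ≤ Z := by
      rw [hZ, Nat.le_div_iff_mul_le hYpos, ← pow_add, add_comm 3]
      exact hYC3
    have hYY : Y ≤ Z := by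
      refine le_trans ?_ hYZ
      calc Y = Y ^ 1 := (pow_one Y).symm
        _ ≤ Y ^ 3 := Nat.pow_le_pow_right (by omega) (by norm_num)
    have hZX : Y ^ C₂ * Z ≤ X := by rw [hZ]; exact Nat.mul_div_le _ _
    have hXt : (X : ℤ) ≤ (Y : ℤ) ^ t := by
      have h1 : (X : ℝ) ≤ (Y : ℝ) ^ t := by
        calc (X : ℝ) = (X : ℝ) ^ (1 : ℝ) := (Real.rpow_one _).symm
          _ ≤ (X : ℝ) ^ (δ / 2 * t) := by
              apply Real.rpow_le_rpow_of_exponent_le (by linarith)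
              nlinarith
          _ = x ^ t := by rw [Real.rpow_mul hXp.le, Real.rpow_natCast, hx]
          _ ≤ (Y : ℝ) ^ t := pow_le_pow_left₀ (by linarith) hxY t
      exact_mod_cast h1
    have hY1' : (1 : ℤ) < Y := by exact_mod_cast (by omega : 1 < Y)
    have hXB : ∀ B : ℕ, B ≤ B₁ + B₂ → (X : ℤ) ^ B < (Y : ℤ) ^ (R + 1) := by
      intro B hBB
      calc (X : ℤ) ^ B ≤ ((Y : ℤ) ^ t) ^ B := pow_le_pow_left₀ (by positivity) hXt B
        _ = (Y : ℤ) ^ (t * B) := by rw [← pow_mul]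
        _ ≤ (Y : ℤ) ^ R := by
            apply pow_le_pow_right₀ hY1'.le
            rw [hR]
            exact Nat.mul_le_mul_left _ hBB
        _ < (Y : ℤ) ^ (R + 1) := pow_lt_pow_right₀ hY1' (by omega)
    have hf : ∀ n : ℕ, n ≤ X → |a * (n : ℤ) ^ 2 + b * n + c| < (Y : ℤ) ^ (R + 1) := by
      intro n hn
      have h1 := hB₁ X (by omega) n hn
      have h2 : (C a * Polynomial.X ^ 2 + C b * Polynomial.X + C c : ℤ[X]).eval (n : ℤ) = a * (n : ℤ) ^ 2 + b * n + c := by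
        simp
      rw [h2] at h1
      exact h1.trans_lt (hXB B₁ (by omega))
    have hg : ∀ n : ℕ, n ≤ X → ∀ j, |(g j).eval (n : ℤ)| < (Y : ℤ) ^ (R + 1) := by
      intro n hn j
      exact (hB₂ X (by omega) n hn j).trans_lt (hXB B₂ (by omega))
    have hmain := hcount Y Z X R (by omega) hYZ hZX hf Γ F hF S P (fun i => by
      obtain ⟨h1, h2, h3, h4⟩ := hP i
      refine ⟨h1, ?_, hP2 _ h3, h4⟩
      have : (Y : ℝ) < P i := lt_of_le_of_lt hYle h2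
      exact_mod_cast this) hinj hcube
    have hprimes := hZ₀ Z (by omega)
    have hsub : Exc a b c g F S Y X ⊆ {n : ℕ | 1 ≤ n ∧ n ≤ X ∧ 0 < a * (n : ℤ) ^ 2 + b * n + c ∧
      AlmostPrime ((X : ℝ) ^ δ) R (a * (n : ℤ) ^ 2 + b * n + c) ∧
      (∀ j, AlmostPrime ((X : ℝ) ^ δ) R ((g j).eval (n : ℤ))) ∧
      F (a * (n : ℤ) ^ 2 + b * n + c).natAbs ∉ S} := by
      rintro n ⟨h1, h2, h3, h4, h5, h6⟩
      exact ⟨h1, h2, h3, almostPrime_of_rough (by omega) hYlt h4 (hf n h2),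
        fun j => almostPrime_of_rough (by omega) hYlt (h5 j) (hg n h2 j), h6⟩
    have hfin : ({n : ℕ | 1 ≤ n ∧ n ≤ X ∧ 0 < a * (n : ℤ) ^ 2 + b * n + c ∧
      AlmostPrime ((X : ℝ) ^ δ) R (a * (n : ℤ) ^ 2 + b * n + c) ∧
      (∀ j, AlmostPrime ((X : ℝ) ^ δ) R ((g j).eval (n : ℤ))) ∧
      F (a * (n : ℤ) ^ 2 + b * n + c).natAbs ∉ S}).Finite :=
      (Set.finite_Iic X).subset fun n hn => hn.2.1
    have hle := Set.ncard_le_ncard hsub hfin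
    have hchain : (Z : ℝ) ^ (1 - ε' / 4) ≤ (2 : ℝ) ^ (r + 1 + R) *
        ((Exc a b c g F S Y X).ncard : ℝ) := by
      refine hprimes.trans ?_
      exact_mod_cast hmain
    refine le_trans ?_ (by exact_mod_cast hle :
      ((Exc a b c g F S Y X).ncard : ℝ) ≤ _)
    -- the numbers
    have hZlow : (X : ℝ) ^ (1 - δ * C₂) / 2 ≤ Z := by
      have h1 : X < Y ^ C₂ * (Z + 1) := by
        rw [hZ]
        exact Nat.lt_mul_div_succ X hYpos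
      have h2 : (X : ℝ) < (Y : ℝ) ^ C₂ * (Z + 1) := by exact_mod_cast h1
      have h3 : (Y : ℝ) ^ C₂ ≤ (X : ℝ) ^ (δ * C₂) := by
        rw [Real.rpow_mul hXp.le, Real.rpow_natCast]
        exact pow_le_pow_left₀ (by positivity) hYle _
      have h4 : (1 : ℝ) ≤ Z := by exact_mod_cast (by omega : 1 ≤ Z)
      have h5 : (X : ℝ) ≤ (X : ℝ) ^ (δ * C₂) * (2 * Z) := by
        calc (X : ℝ) ≤ (Y : ℝ) ^ C₂ * (Z + 1) := h2.le
          _ ≤ (X : ℝ) ^ (δ * C₂) * (Z + 1) := mul_le_mul_of_nonneg_right h3 (by linarith)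
          _ ≤ (X : ℝ) ^ (δ * C₂) * (2 * Z) :=
            mul_le_mul_of_nonneg_left (by linarith) (by positivity)
      have h6 : (X : ℝ) ^ (1 - δ * C₂) * (X : ℝ) ^ (δ * C₂) = X := by
        rw [← Real.rpow_add hXp]
        simp
      have h7 : 0 < (X : ℝ) ^ (δ * C₂) := by positivity
      rw [div_le_iff₀ (by norm_num)]
      by_contra hcon
      push Not at hcon
      have := mul_lt_mul_of_pos_right hcon h7
      nlinarith
    have h8 : (X : ℝ) ^ (1 - ε' / 2) * (1 / 2) ≤ (Z : ℝ) ^ (1 - ε' / 4) := by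
      have h9 : ((X : ℝ) ^ (1 - δ * C₂) / 2) ^ (1 - ε' / 4) ≤ (Z : ℝ) ^ (1 - ε' / 4) :=
        Real.rpow_le_rpow (by positivity) hZlow (by linarith)
      refine le_trans ?_ h9
      rw [Real.div_rpow (by positivity) (by norm_num), ← Real.rpow_mul hXp.le, mul_one_div]
      have h10 : (2 : ℝ) ^ (1 - ε' / 4) ≤ 2 := by
        calc (2 : ℝ) ^ (1 - ε' / 4) ≤ (2 : ℝ) ^ (1 : ℝ) :=
              Real.rpow_le_rpow_of_exponent_le (by norm_num) (by linarith)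
          _ = 2 := Real.rpow_one _
      have h11 : (X : ℝ) ^ (1 - ε' / 2) ≤ (X : ℝ) ^ ((1 - δ * C₂) * (1 - ε' / 4)) := by
        apply Real.rpow_le_rpow_of_exponent_le (by linarith)
        have h12 : δ * C₂ ≤ ε' / 8 := by rw [← hδC]; nlinarith
        have h13 : 0 ≤ δ * C₂ := by positivity
        nlinarith
      calc (X : ℝ) ^ (1 - ε' / 2) / 2 ≤ (X : ℝ) ^ ((1 - δ * C₂) * (1 - ε' / 4)) / 2 := by linarith
        _ ≤ (X : ℝ) ^ ((1 - δ * C₂) * (1 - ε' / 4)) / (2 : ℝ) ^ (1 - ε' / 4) :=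
          div_le_div_of_nonneg_left (by positivity) (by positivity) h10
    have h14 : (X : ℝ) ^ (1 - ε) * (2 : ℝ) ^ (r + 2 + R) ≤ (X : ℝ) ^ (1 - ε' / 2) := by
      calc (X : ℝ) ^ (1 - ε) * (2 : ℝ) ^ (r + 2 + R)
          ≤ (X : ℝ) ^ (1 - ε') * (X : ℝ) ^ (ε' / 2) := by
            apply mul_le_mul _ hB (by positivity) (by positivity)
            exact Real.rpow_le_rpow_of_exponent_le (by linarith) (by linarith)
        _ = (X : ℝ) ^ (1 - ε' / 2) := by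
            rw [← Real.rpow_add hXp]
            congr 1
            ring
    have h15 : (2 : ℝ) ^ (r + 2 + R) = (2 : ℝ) ^ (r + 1 + R) * 2 := by
      rw [← pow_succ]; congr 1; ring
    have h16 : 0 < (2 : ℝ) ^ (r + 1 + R) := by positivity
    rw [h15] at h14
    have h17 : (2 : ℝ) ^ (r + 1 + R) * (X : ℝ) ^ (1 - ε) ≤
        (2 : ℝ) ^ (r + 1 + R) * ((Exc a b c g F S Y X).ncard : ℝ) := by
      linarith
    exact le_of_mul_le_mul_left h17 h16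

end Pool.Agent.TH423.DS
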