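import Pool.Agent.TH423.DS.Member
import Pool.Agent.TH423.DS.Arith

/-! One exceptional integer for every large prime. -/

set_option autoImplicit false

open Finset Polynomial

namespace Pool.Agent.TH423.DS

open Pool.Agent.H661R3.OP (Rough)

/-- no translate of the cube generated by the values `F (P i)` is contained in `S - S` -/
def Cube {H : Type} [AddCommGroup H] (F : ℕ → H) (S : Set H) {r : ℕ} (P : Fin r → ℕ) : Prop :=
  ∀ h : H, ∃ A : Finset (Fin r), ∀ x ∈ S, ∀ y ∈ S,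
    h + (∑ i ∈ A, F (P i) - ∑ i ∈ Aᶜ, F (P i)) ≠ x - y

/-- the integers that are counted -/
def Exc {H : Type} (a b c : ℤ) {s : ℕ} (g : Fin s → ℤ[X]) (F : ℕ → H) (S : Set H)
    (Y X : ℕ) : Set ℕ :=
  {n : ℕ | 1 ≤ n ∧ n ≤ X ∧ 0 < a * (n : ℤ) ^ 2 + b * n + c ∧ Rough Y (a * (n : ℤ) ^ 2 + b * n + c) ∧
    (∀ j, Rough Y ((g j).eval (n : ℤ))) ∧ F (a * (n : ℤ) ^ 2 + b * n + c).natAbs ∉ S}

theorem F_prod {H : Type} [AddCommGroup H] (F : ℕ → H)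
    (hF : ∀ x y : ℕ, x ≠ 0 → y ≠ 0 → F (x * y) = F x + F y) {ι : Type} (A : Finset ι) (P : ι → ℕ)
    (hP : ∀ i ∈ A, P i ≠ 0) : F (∏ i ∈ A, P i) = ∑ i ∈ A, F (P i) := by
  classical
  have h1 : F 1 = 0 := by
    have := hF 1 1 one_ne_zero one_ne_zero
    rw [mul_one] at this
    exact left_eq_add.1 this
  induction A using Finset.induction_on with
  | empty => simpa using h1
  | insert i A hi ih =>
    rw [prod_insert hi, sum_insert hi, hF _ _ (hP i (mem_insert_self _ _))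
      (prod_ne_zero_iff.2 fun j hj => hP j (mem_insert_of_mem hj)),
      ih fun j hj => hP j (mem_insert_of_mem hj)]

theorem size_bound (Y Z C r : ℕ) (W M m H w b Lp a n : ℤ) (hY : 1 ≤ (Y : ℤ)) (hZ : 1 ≤ (Z : ℤ))
    (hW : 0 < W) (hM : 0 < M) (hm : 0 < m) (hw : 0 < w) (hLp : 0 < Lp) (ha : 0 < a)
    (hm2 : m ≤ ((Y : ℤ) ^ C + 2) * (M * W)) (hMH : M * H ≤ 2 * m ^ 2)
    (hwY : w ≤ (Y : ℤ) ^ (3 * r)) (hMY : M ≤ (Y : ℤ) ^ (3 * r) * (2 * Z))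
    (hYW : 36 * W ^ 2 + |b| * Lp + 2 ≤ Y) (hn0 : 0 < n)
    (hn : a * (2 * Lp) * n = w * H - m - b * Lp) : n ≤ (Y : ℤ) ^ (2 * C + 6 * r + 2) * Z := by
  have hYC : (1 : ℤ) ≤ (Y : ℤ) ^ C := one_le_pow₀ hY
  have hY3 : (1 : ℤ) ≤ (Y : ℤ) ^ (3 * r) := one_le_pow₀ hY
  have h1 : m ≤ 3 * (Y : ℤ) ^ C * (M * W) := by
    refine hm2.trans ?_
    have : (Y : ℤ) ^ C + 2 ≤ 3 * (Y : ℤ) ^ C := by linarith
    exact mul_le_mul_of_nonneg_right this (by positivity)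
  have h2 : m ^ 2 ≤ (3 * (Y : ℤ) ^ C * (M * W)) ^ 2 := pow_le_pow_left₀ hm.le h1 2
  have h3 : M * H ≤ M * (18 * (Y : ℤ) ^ (2 * C) * M * W ^ 2) := by
    refine hMH.trans ?_
    calc 2 * m ^ 2 ≤ 2 * (3 * (Y : ℤ) ^ C * (M * W)) ^ 2 := by linarith
      _ = M * (18 * (Y : ℤ) ^ (2 * C) * M * W ^ 2) := by ring
  have h4 : H ≤ 18 * (Y : ℤ) ^ (2 * C) * M * W ^ 2 := le_of_mul_le_mul_left h3 hM
  have h5 : H ≤ 18 * (Y : ℤ) ^ (2 * C) * ((Y : ℤ) ^ (3 * r) * (2 * Z)) * W ^ 2 := by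
    refine h4.trans ?_
    have : 18 * (Y : ℤ) ^ (2 * C) * M ≤ 18 * (Y : ℤ) ^ (2 * C) * ((Y : ℤ) ^ (3 * r) * (2 * Z)) :=
      mul_le_mul_of_nonneg_left hMY (by positivity)
    exact mul_le_mul_of_nonneg_right this (by positivity)
  have h6 : w * H ≤ (Y : ℤ) ^ (3 * r) *
      (18 * (Y : ℤ) ^ (2 * C) * ((Y : ℤ) ^ (3 * r) * (2 * Z)) * W ^ 2) := by
    calc w * H ≤ w * (18 * (Y : ℤ) ^ (2 * C) * ((Y : ℤ) ^ (3 * r) * (2 * Z)) * W ^ 2) :=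
          mul_le_mul_of_nonneg_left h5 hw.le
      _ ≤ _ := mul_le_mul_of_nonneg_right hwY (by positivity)
  have h7 : (Y : ℤ) ^ (3 * r) *
      (18 * (Y : ℤ) ^ (2 * C) * ((Y : ℤ) ^ (3 * r) * (2 * Z)) * W ^ 2) =
      (36 * W ^ 2) * ((Y : ℤ) ^ (2 * C + 6 * r) * Z) := by ring
  have hE : (1 : ℤ) ≤ (Y : ℤ) ^ (2 * C + 6 * r) * Z := by
    have : (1 : ℤ) ≤ (Y : ℤ) ^ (2 * C + 6 * r) := one_le_pow₀ hY
    nlinarith
  obtain ⟨E, hEd⟩ : ∃ E : ℤ, E = (Y : ℤ) ^ (2 * C + 6 * r) * Z := ⟨_, rfl⟩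
  rw [← hEd] at hE h7
  have h8 : (Y : ℤ) ^ (2 * C + 6 * r + 2) * Z = (Y : ℤ) ^ 2 * E := by rw [hEd]; ring
  rw [h8]
  have h9 : n ≤ a * (2 * Lp) * n := by
    have : 1 ≤ a * (2 * Lp) := by nlinarith
    nlinarith
  have h10 : -(b * Lp) ≤ |b| * Lp := by
    have := mul_le_mul_of_nonneg_right (neg_abs_le b) hLp.le
    linarith
  have h11 : 0 ≤ |b| * Lp := by positivity
  have h12 : n ≤ 36 * W ^ 2 * E + |b| * Lp := by linarith
  have h13 : 36 * W ^ 2 * E + |b| * Lp ≤ (36 * W ^ 2 + |b| * Lp) * E := by nlinarith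
  have h14 : (36 * W ^ 2 + |b| * Lp) * E ≤ Y * E := by
    apply mul_le_mul_of_nonneg_right _ (by linarith)
    linarith
  have h15 : (Y : ℤ) * E ≤ (Y : ℤ) ^ 2 * E := by
    apply mul_le_mul_of_nonneg_right _ (by linarith)
    nlinarith
  linarith

theorem prod_one_mod {ι : Type} (W : ℤ) (A : Finset ι) (f : ι → ℤ) (h : ∀ i ∈ A, W ∣ f i - 1) :
    W ∣ ∏ i ∈ A, f i - 1 := by
  classical
  induction A using Finset.induction_on with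
  | empty => simp
  | insert i A hi ih =>
    rw [prod_insert hi]
    have h1 := ih fun j hj => h j (mem_insert_of_mem hj)
    have h2 := h i (mem_insert_self _ _)
    have : f i * ∏ x ∈ A, f x - 1 = f i * (∏ x ∈ A, f x - 1) + (f i - 1) := by ring
    rw [this]
    exact dvd_add (h1.mul_left _) h2

theorem prod_le_pow {r : ℕ} (A : Finset (Fin r)) (P : Fin r → ℕ) (Y : ℕ) (hY : 1 ≤ Y)
    (h : ∀ i, P i ≤ Y ^ 3) : ∏ i ∈ A, P i ≤ Y ^ (3 * r) := by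
  calc ∏ i ∈ A, P i ≤ ∏ i ∈ A, Y ^ 3 := prod_le_prod' fun i _ => h i
    _ = (Y ^ 3) ^ A.card := by rw [prod_const]
    _ ≤ (Y ^ 3) ^ r := Nat.pow_le_pow_right (by positivity) ((card_le_univ A).trans (by simp))
    _ = Y ^ (3 * r) := by rw [← pow_mul]

theorem core (a b c : ℤ) (ha : 0 < a) (hD : b ^ 2 - 4 * a * c ≠ 0) {s : ℕ} (g : Fin s → ℤ[X])
    (hadm : ∀ p : ℕ, p.Prime → ∃ n : ℤ, ¬ (p : ℤ) ∣ a * n ^ 2 + b * n + c ∧
      ∀ j, ¬ (p : ℤ) ∣ (g j).eval n) (r : ℕ) :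
    ∃ q C₂ Y₀ Lp : ℕ, 0 < q ∧ 2 ≤ Y₀ ∧ ∀ Y Z X : ℕ, Y₀ ≤ Y → Y ^ 3 ≤ Z → Y ^ C₂ * Z ≤ X →
    ∀ (Γ : Type) [AddCommGroup Γ] (F : ℕ → Γ),
    (∀ x y : ℕ, x ≠ 0 → y ≠ 0 → F (x * y) = F x + F y) → ∀ (S : Set Γ) (P : Fin r → ℕ),
    (∀ i, (P i).Prime ∧ Y < P i ∧ P i ≤ Y ^ 3 ∧ (q : ℤ) ∣ (P i : ℤ) - 1) →
    Function.Injective P → Cube F S P →
    ∀ G : ℕ, G.Prime → Z < G → G ≤ 2 * Z → (q : ℤ) ∣ (G : ℤ) - 1 →
    ∃ n ∈ Exc a b c g F S Y X, ∃ (A : Finset (Fin r)) (d : ℕ),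
      d ∣ (a * (n : ℤ) ^ 2 + b * n + c).natAbs ∧
      (d = (∏ i ∈ A, P i) * G ∨ ((d : ℤ) - Lp * (2 * a * n + b)) ^ 2 -
        (Lp : ℤ) ^ 2 * (b ^ 2 - 4 * a * c) = (∏ i ∈ A, (P i : ℤ)) * G * d) := by
  classical
  obtain ⟨k, hk⟩ : ∃ k : ℕ, k = 2 + 2 ^ r * 2 + 2 ^ r * (3 * ∑ j, (g j).natDegree) + a.toNat :=
    ⟨_, rfl⟩
  have hk1 : 1 ≤ k := by omega
  have hak : a ≤ k := by omega
  obtain ⟨nst, hnf, hng⟩ := exists_nst (2 * k) (C a * X ^ 2 + C b * X + C c) g (by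
    intro p hp
    obtain ⟨n, h1, h2⟩ := hadm p hp
    refine ⟨n, ?_, h2⟩
    simpa using h1)
  have hLpd : ∀ p : ℕ, p.Prime → ((p : ℤ) ∣ ((primorial (2 * k) : ℕ) : ℤ) ↔ p ≤ 2 * k) := by
    intro p hp
    rw [Int.natCast_dvd_natCast, hp.dvd_primorial_iff]
  obtain ⟨Lp, hLpdef⟩ : ∃ Lp : ℕ, Lp = primorial (2 * k) := ⟨_, rfl⟩
  rw [← hLpdef] at hLpd
  have hLp0 : 0 < Lp := by rw [hLpdef]; exact primorial_pos _
  have hLp0' : (0 : ℤ) < Lp := by exact_mod_cast hLp0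
  obtain ⟨Cs, hCs⟩ := family a b c ha g k hk1 (Lp : ℤ) hLp0' hLpd hak nst
    (by
      intro p hp hpk
      have := hnf p hp hpk
      simpa using this)
    (fun j p hp hpk => hng j p hp hpk)
    (fun j p hp => by
      obtain ⟨n, -, h2⟩ := hadm p hp
      exact ⟨n, h2 j⟩)
  obtain ⟨D, hDdef⟩ : ∃ D : ℤ, D = b ^ 2 - 4 * a * c := ⟨_, rfl⟩
  rw [← hDdef] at hD hCs ⊢
  obtain ⟨W, hWdef⟩ : ∃ W : ℤ, W = a * (2 * (Lp : ℤ)) ^ 2 := ⟨_, rfl⟩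
  rw [← hWdef] at hCs
  have hW0 : 0 < W := by rw [hWdef]; positivity
  have hDn : 0 < D.natAbs := Int.natAbs_pos.2 hD
  refine ⟨4 * D.natAbs * W.toNat, 2 * Cs + 6 * r + 2,
    2 + 2 * k + D.natAbs + b.natAbs + (36 * W ^ 2 + |b| * Lp + 2).toNat, Lp, ?_, by omega, ?_⟩
  · have : 0 < W.toNat := by omega
    positivity
  intro Y Z N hY hYZ hZN Γ _ F hF S P hP hinj hcube G hG hZG hGZ hqG
  have hY2 : 2 ≤ Y := by omega
  have hYZ' : Y ≤ Z := by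
    refine le_trans ?_ hYZ
    calc Y = Y ^ 1 := (pow_one Y).symm
      _ ≤ Y ^ 3 := Nat.pow_le_pow_right (by omega) (by norm_num)
  have hqW : W ∣ ((4 * D.natAbs * W.toNat : ℕ) : ℤ) := by
    refine ⟨4 * D.natAbs, ?_⟩
    push_cast
    rw [Int.toNat_of_nonneg hW0.le]
    ring
  have hqD : ((4 * D.natAbs : ℕ) : ℤ) ∣ ((4 * D.natAbs * W.toNat : ℕ) : ℤ) :=
    Int.natCast_dvd_natCast.2 (Dvd.intro _ rfl)
  have hPG : ∀ i, P i ≠ G := by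
    intro i h
    have := (hP i).2.2.1
    omega
  have hP0 : ∀ i, P i ≠ 0 := fun i => (hP i).1.ne_zero
  have hprod1 : ∀ A : Finset (Fin r), 1 ≤ ∏ i ∈ A, P i := fun A =>
    Nat.one_le_iff_ne_zero.2 (prod_ne_zero_iff.2 fun i _ => hP0 i)
  obtain ⟨M, hM⟩ : ∃ M : ℤ, M = (∏ i, (P i : ℤ)) * G := ⟨_, rfl⟩
  have hGM : (G : ℤ) ≤ M := by
    have : (1 : ℤ) ≤ ∏ i, (P i : ℤ) := by exact_mod_cast hprod1 univ
    rw [hM]
    nlinarith [(by exact_mod_cast hG.pos : (0 : ℤ) < (G : ℤ))]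
  have hYM : (Y : ℤ) ≤ M := by
    refine le_trans ?_ hGM
    exact_mod_cast (by omega : Y ≤ G)
  have hM0 : 0 < M := by
    have : (2 : ℤ) ≤ Y := by exact_mod_cast hY2
    linarith
  have hMr : Rough Y M := by
    rw [hM]
    exact Rough.mul (Rough.prod _ _ fun i _ => Rough.prime (hP i).1 (hP i).2.1)
      (Rough.prime hG (by omega))
  obtain ⟨ρ, hρ⟩ : ∃ ρ : ℤ, M ∣ ρ ^ 2 - (Lp : ℤ) ^ 2 * D := by
    have h1 := sq_prod (κ := Option (Fin r))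
      (fun o => o.elim (G : ℤ) (fun i => (P i : ℤ))) ((Lp : ℤ) ^ 2 * D) ?_ ?_
    · rw [Fintype.prod_option] at h1
      simp only [Option.elim_none, Option.elim_some] at h1
      rw [hM, mul_comm]
      exact h1
    · intro i j hij
      rcases i with _ | i <;> rcases j with _ | j
      · exact absurd rfl hij
      · exact Nat.isCoprime_iff_coprime.2 ((Nat.coprime_primes hG (hP j).1).2 (hPG j).symm)
      · exact Nat.isCoprime_iff_coprime.2 ((Nat.coprime_primes (hP i).1 hG).2 (hPG i))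
      · refine Nat.isCoprime_iff_coprime.2 ((Nat.coprime_primes (hP i).1 (hP j).1).2 ?_)
        intro h
        exact hij (congrArg some (hinj h))
    · have key : ∀ p : ℕ, p.Prime → ((4 * D.natAbs * W.toNat : ℕ) : ℤ) ∣ (p : ℤ) - 1 →
          ∃ ρ : ℤ, (p : ℤ) ∣ ρ ^ 2 - (Lp : ℤ) ^ 2 * D := by
        intro p hp hpq
        obtain ⟨ρ, hρ⟩ := sq_prime D hD p hp (hqD.trans hpq)
        refine ⟨Lp * ρ, ?_⟩
        have : ((Lp : ℤ) * ρ) ^ 2 - (Lp : ℤ) ^ 2 * D = (Lp : ℤ) ^ 2 * (ρ ^ 2 - D) := by ring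
        rw [this]
        exact hρ.mul_left _
      intro i
      rcases i with _ | i
      · exact key G hG hqG
      · exact key (P i) (hP i).1 (hP i).2.2.2
  have hcard : Fintype.card (Finset (Fin r)) = 2 ^ r := by simp
  obtain ⟨m, H, hm0, hm2, hH, hH0, hMH, hHr, hfam⟩ := hCs (Finset (Fin r))
    (by rw [hcard]; omega) Y hY2 (by omega) M (fun A => (∏ i ∈ A, (P i : ℤ)) * G)
    (fun A => ∏ i ∈ Aᶜ, (P i : ℤ)) hM0 hMr (by
      refine le_trans ?_ hYM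
      rw [Int.abs_eq_natAbs]
      exact_mod_cast (by omega : D.natAbs ≤ Y)) (by
      refine le_trans ?_ hYM
      rw [Int.abs_eq_natAbs]
      exact_mod_cast (by omega : b.natAbs ≤ Y)) (by
      intro A
      have h1 : (0 : ℤ) < ∏ i ∈ A, (P i : ℤ) := by exact_mod_cast hprod1 A
      have h2 : (0 : ℤ) < ∏ i ∈ Aᶜ, (P i : ℤ) := by exact_mod_cast hprod1 Aᶜ
      have h3 : (0 : ℤ) < G := by exact_mod_cast hG.pos
      refine ⟨by positivity, h2, ?_⟩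
      rw [hM, ← Finset.prod_mul_prod_compl A]
      ring) (by
      intro A
      have h1 : W ∣ ∏ i ∈ A, (P i : ℤ) - 1 :=
        prod_one_mod W A _ fun i _ => hqW.trans (hP i).2.2.2
      have h2 : W ∣ (G : ℤ) - 1 := hqW.trans hqG
      have h3 : (∏ i ∈ A, (P i : ℤ)) * G - 1 =
        (∏ i ∈ A, (P i : ℤ) - 1) * G + ((G : ℤ) - 1) := by ring
      rw [h3]
      exact dvd_add (h1.mul_right _) h2) ρ hρ
  lift H to ℕ using hH0.le
  obtain ⟨A, hA⟩ := hcube (F G - F H)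
  obtain ⟨n, y, hn, hy, hn0, hy0, hyr, hg1, hg2⟩ := hfam A
  lift n to ℕ using hn0.le
  lift y to ℕ using hy0.le
  have huw : (∏ i ∈ A, (P i : ℤ)) * G * ∏ i ∈ Aᶜ, (P i : ℤ) = M := by
    rw [hM, ← Finset.prod_mul_prod_compl A]
    ring
  rw [hWdef] at hy
  rw [hDdef] at hH
  obtain ⟨hv1, hv2, hv3⟩ := values a b c Lp m ((∏ i ∈ A, (P i : ℤ)) * G) (∏ i ∈ Aᶜ, (P i : ℤ)) H
    M n y ha hLp0' huw hH hn hy
  have hH0' : H ≠ 0 := by omega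
  have hy0' : y ≠ 0 := by omega
  have hN1 : a * (n : ℤ) ^ 2 + b * n + c = (((∏ i ∈ A, P i) * G * y : ℕ) : ℤ) := by
    rw [hv1]; push_cast; ring
  have hcast : ((n : ℤ) + 2 * Lp * y) = ((n + 2 * Lp * y : ℕ) : ℤ) := by push_cast; ring
  rw [hcast] at hv2 hv3
  have hN2 : a * ((n + 2 * Lp * y : ℕ) : ℤ) ^ 2 + b * ((n + 2 * Lp * y : ℕ) : ℤ) + c =
      (((∏ i ∈ Aᶜ, P i) * H * y : ℕ) : ℤ) := by
    rw [hv2]; push_cast; ring
  have hF1 : F ((∏ i ∈ A, P i) * G * y) = ∑ i ∈ A, F (P i) + F G + F y := by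
    rw [hF _ _ (mul_ne_zero (by have := hprod1 A; omega) hG.ne_zero) hy0',
      hF _ _ (by have := hprod1 A; omega) hG.ne_zero, F_prod F hF A P fun i _ => hP0 i]
  have hF2 : F ((∏ i ∈ Aᶜ, P i) * H * y) = ∑ i ∈ Aᶜ, F (P i) + F H + F y := by
    rw [hF _ _ (mul_ne_zero (by have := hprod1 Aᶜ; omega) hH0') hy0',
      hF _ _ (by have := hprod1 Aᶜ; omega) hH0', F_prod F hF Aᶜ P fun i _ => hP0 i]
  have hr1 : Rough Y (((∏ i ∈ A, P i) * G * y : ℕ) : ℤ) := by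
    push_cast
    exact Rough.mul (Rough.mul (Rough.prod _ _ fun i _ => Rough.prime (hP i).1 (hP i).2.1)
      (Rough.prime hG (by omega))) hyr
  have hr2 : Rough Y (((∏ i ∈ Aᶜ, P i) * H * y : ℕ) : ℤ) := by
    push_cast
    exact Rough.mul (Rough.mul (Rough.prod _ _ fun i _ => Rough.prime (hP i).1 (hP i).2.1)
      hHr) hyr
  have hp1 : 0 < (∏ i ∈ A, P i) * G * y :=
    Nat.pos_of_ne_zero (mul_ne_zero (mul_ne_zero (by have := hprod1 A; omega) hG.ne_zero) hy0')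
  have hp2 : 0 < (∏ i ∈ Aᶜ, P i) * H * y :=
    Nat.pos_of_ne_zero (mul_ne_zero (mul_ne_zero (by have := hprod1 Aᶜ; omega) hH0') hy0')
  -- sizes
  have hsz : ((n + 2 * Lp * y : ℕ) : ℤ) ≤ (Y : ℤ) ^ (2 * Cs + 6 * r + 2) * Z := by
    refine size_bound Y Z Cs r W M m H (∏ i ∈ Aᶜ, (P i : ℤ)) b Lp a _
      (by exact_mod_cast (by omega : 1 ≤ Y)) (by exact_mod_cast (by omega : 1 ≤ Z)) hW0 hM0 hm0
      (by exact_mod_cast hprod1 Aᶜ) hLp0' ha hm2 hMH ?_ ?_ ?_ (by exact_mod_cast (by omega)) ?_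
    · exact_mod_cast prod_le_pow Aᶜ P Y (by omega) fun i => (hP i).2.2.1
    · rw [hM]
      have h1 : ∏ i, (P i : ℤ) ≤ (Y : ℤ) ^ (3 * r) := by
        exact_mod_cast prod_le_pow univ P Y (by omega) fun i => (hP i).2.2.1
      have h2 : (G : ℤ) ≤ 2 * Z := by exact_mod_cast hGZ
      exact mul_le_mul h1 h2 (by positivity) (by positivity)
    · have h1 : (36 * W ^ 2 + |b| * Lp + 2).toNat ≤ Y := by omega
      omega
    · linear_combination hv3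
  have hszN : n + 2 * Lp * y ≤ N := by
    refine le_trans ?_ hZN
    exact_mod_cast hsz
  by_cases h1 : F ((∏ i ∈ A, P i) * G * y) ∈ S
  · by_cases h2 : F ((∏ i ∈ Aᶜ, P i) * H * y) ∈ S
    · exfalso
      apply hA _ h1 _ h2
      rw [hF1, hF2]
      abel
    · refine ⟨n + 2 * Lp * y, ⟨by omega, hszN, ?_, ?_, ?_, ?_⟩, A, (∏ i ∈ Aᶜ, P i) * H, ?_, ?_⟩
      · rw [hN2]; exact_mod_cast hp2
      · rw [hN2]; exact hr2
      · intro j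
        have := hg2 j
        rwa [hcast] at this
      · rw [hN2, Int.natAbs_natCast]; exact h2
      · rw [hN2, Int.natAbs_natCast]; exact Dvd.intro _ rfl
      · right
        have e1 : (((∏ i ∈ Aᶜ, P i) * H : ℕ) : ℤ) = (∏ i ∈ Aᶜ, (P i : ℤ)) * H := by push_cast; ring
        rw [e1, hv3]
        have e2 : (∏ i ∈ A, (P i : ℤ)) * G * ((∏ i ∈ Aᶜ, (P i : ℤ)) * H) = M * H := by
          rw [← huw]; ring
        rw [e2, ← hH, hDdef]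
        ring
  · refine ⟨n, ⟨by omega, by omega, ?_, ?_, hg1, ?_⟩, A, (∏ i ∈ A, P i) * G, ?_, Or.inl rfl⟩
    · rw [hN1]; exact_mod_cast hp1
    · rw [hN1]; exact hr1
    · rw [hN1, Int.natAbs_natCast]; exact h1
    · rw [hN1, Int.natAbs_natCast]; exact Dvd.intro _ rfl

end Pool.Agent.TH423.DS
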