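import Pool.Agent.TH423.DS.Core
import Pool.Agent.TH423.DS.Primes

/-! Many exceptional integers. -/

set_option autoImplicit false

open Finset Polynomial

namespace Pool.Agent.TH423.DS

open Pool.Agent.H661R3.OP (Rough)

theorem Exc_finite {H : Type} (a b c : ℤ) {s : ℕ} (g : Fin s → ℤ[X]) (F : ℕ → H) (S : Set H)
    (Y X : ℕ) : (Exc a b c g F S Y X).Finite :=
  (Set.finite_Iic X).subset fun _ hn => hn.2.1

open Classical in
theorem count (a b c : ℤ) (ha : 0 < a) (hD : b ^ 2 - 4 * a * c ≠ 0) {s : ℕ} (g : Fin s → ℤ[X])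
    (hadm : ∀ p : ℕ, p.Prime → ∃ n : ℤ, ¬ (p : ℤ) ∣ a * n ^ 2 + b * n + c ∧
      ∀ j, ¬ (p : ℤ) ∣ (g j).eval n) (r : ℕ) :
    ∃ q C₂ Y₀ : ℕ, 0 < q ∧ 2 ≤ Y₀ ∧ ∀ Y Z X R : ℕ, Y₀ ≤ Y → Y ^ 3 ≤ Z → Y ^ C₂ * Z ≤ X →
    (∀ n : ℕ, n ≤ X → |a * (n : ℤ) ^ 2 + b * n + c| < (Y : ℤ) ^ (R + 1)) →
    ∀ (Γ : Type) [AddCommGroup Γ] (F : ℕ → Γ),
    (∀ x y : ℕ, x ≠ 0 → y ≠ 0 → F (x * y) = F x + F y) → ∀ (S : Set Γ) (P : Fin r → ℕ),
    (∀ i, (P i).Prime ∧ Y < P i ∧ P i ≤ Y ^ 3 ∧ (q : ℤ) ∣ (P i : ℤ) - 1) →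
    Function.Injective P → Cube F S P →
    ((Ioc Z (2 * Z)).filter (fun p : ℕ => p.Prime ∧ (q : ℤ) ∣ (p : ℤ) - 1)).card ≤
      2 ^ (r + 1 + R) * (Exc a b c g F S Y X).ncard := by
  obtain ⟨q, C₂, Y₀, Lp, hq, hY₀, hcore⟩ := core a b c ha hD g hadm r
  refine ⟨q, C₂, Y₀, hq, hY₀, ?_⟩
  intro Y Z X R hY hYZ hZX hR Γ _ F hF S P hP hinj hcube
  have h1 := hcore Y Z X hY hYZ hZX Γ F hF S P hP hinj hcube
  have h2 : ∀ G ∈ (Ioc Z (2 * Z)).filter (fun p : ℕ => p.Prime ∧ (q : ℤ) ∣ (p : ℤ) - 1),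
      ∃ n ∈ Exc a b c g F S Y X, ∃ (A : Finset (Fin r)) (d : ℕ),
      d ∣ (a * (n : ℤ) ^ 2 + b * n + c).natAbs ∧
      (d = (∏ i ∈ A, P i) * G ∨ ((d : ℤ) - Lp * (2 * a * n + b)) ^ 2 -
        (Lp : ℤ) ^ 2 * (b ^ 2 - 4 * a * c) = (∏ i ∈ A, (P i : ℤ)) * G * d) := by
    intro G hG
    rw [mem_filter, mem_Ioc] at hG
    exact h1 G hG.2.1 hG.1.1 hG.1.2 hG.2.2
  choose! nf hnf Af df hdf hor using h2
  obtain ⟨E, hE⟩ : ∃ E : Finset ℕ, ∀ n, n ∈ E ↔ n ∈ Exc a b c g F S Y X :=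
    ⟨(Exc_finite a b c g F S Y X).toFinset, fun n => Set.Finite.mem_toFinset _⟩
  have hEcard : (Exc a b c g F S Y X).ncard = E.card := by
    rw [← Set.ncard_coe_finset]
    congr 1
    ext n
    rw [mem_coe, hE]
  have hprod : ∀ A : Finset (Fin r), (∏ i ∈ A, P i) ≠ 0 := fun A =>
    prod_ne_zero_iff.2 fun i _ => (hP i).1.ne_zero
  have hinjφ : Set.InjOn (fun G => ((⟨nf G, df G⟩ : Σ _ : ℕ, ℕ),
      (Af G, decide (df G = (∏ i ∈ Af G, P i) * G))))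
      ((Ioc Z (2 * Z)).filter (fun p : ℕ => p.Prime ∧ (q : ℤ) ∣ (p : ℤ) - 1) : Finset ℕ) := by
    intro G hG G' hG' heq
    rw [mem_coe] at hG hG'
    simp only [Prod.mk.injEq, Sigma.mk.injEq, heq_eq_eq] at heq
    obtain ⟨⟨hn, hd⟩, hA, hτ⟩ := heq
    have hd0 : df G ≠ 0 := by
      intro h0
      have h3 := hdf G hG
      rw [h0, Nat.zero_dvd] at h3
      have h4 := (hnf G hG).2.2.1
      have h5 := Int.natAbs_eq_zero.1 h3
      omega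
    by_cases hc : df G = (∏ i ∈ Af G, P i) * G
    · have hc' : df G' = (∏ i ∈ Af G', P i) * G' := by
        rw [decide_eq_true hc] at hτ
        exact of_decide_eq_true hτ.symm
      rw [← hA, ← hd, hc] at hc'
      exact Nat.eq_of_mul_eq_mul_left (Nat.pos_of_ne_zero (hprod _)) hc'
    · have hc' : df G' ≠ (∏ i ∈ Af G', P i) * G' := by
        rw [decide_eq_false hc] at hτ
        exact of_decide_eq_false hτ.symm
      have e1 := (hor G hG).resolve_left hc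
      have e2 := (hor G' hG').resolve_left hc'
      rw [← hA, ← hd, ← hn] at e2
      rw [e1] at e2
      have hd0' : ((df G : ℕ) : ℤ) ≠ 0 := by exact_mod_cast hd0
      have hp0' : (∏ i ∈ Af G, (P i : ℤ)) ≠ 0 := by exact_mod_cast hprod (Af G)
      have e3 := mul_right_cancel₀ hd0' e2
      have e4 := mul_left_cancel₀ hp0' e3
      exact_mod_cast e4
  have hmaps : ∀ G ∈ (Ioc Z (2 * Z)).filter (fun p : ℕ => p.Prime ∧ (q : ℤ) ∣ (p : ℤ) - 1),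
      (fun G => ((⟨nf G, df G⟩ : Σ _ : ℕ, ℕ),
      (Af G, decide (df G = (∏ i ∈ Af G, P i) * G)))) G ∈
      (E.sigma (fun n => (a * (n : ℤ) ^ 2 + b * n + c).natAbs.divisors)) ×ˢ
        (univ : Finset (Finset (Fin r) × Bool)) := by
    intro G hG
    simp only [mem_product, mem_sigma, mem_univ, and_true]
    refine ⟨(hE _).2 (hnf G hG), Nat.mem_divisors.2 ⟨hdf G hG, ?_⟩⟩
    have h4 := (hnf G hG).2.2.1
    intro h5
    rw [Int.natAbs_eq_zero] at h5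
    omega
  refine (card_le_card_of_injOn _ hmaps hinjφ).trans ?_
  rw [card_product, card_sigma, hEcard]
  have hdiv : ∑ n ∈ E, (a * (n : ℤ) ^ 2 + b * n + c).natAbs.divisors.card ≤ ∑ n ∈ E, 2 ^ R := by
    apply sum_le_sum
    intro n hn
    have hn' := (hE n).1 hn
    have h4 := hn'.2.2.1
    have h0 : (a * (n : ℤ) ^ 2 + b * n + c).natAbs ≠ 0 := by
      intro h5
      rw [Int.natAbs_eq_zero] at h5
      omega
    refine (card_divisors_le _ h0).trans (Nat.pow_le_pow_right (by norm_num) ?_)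
    refine cardFactors_le (by omega : 1 ≤ Y) h0 ?_ ?_
    · rw [Int.natCast_natAbs, abs_of_pos h4]
      exact hn'.2.2.2.1
    · have := hR n hn'.2.1
      zify
      exact_mod_cast this
  have hcardu : (univ : Finset (Finset (Fin r) × Bool)).card = 2 ^ (r + 1) := by
    rw [card_univ]
    simp [pow_succ]
  rw [hcardu]
  rw [sum_const, smul_eq_mul] at hdiv
  calc (∑ n ∈ E, (a * (n : ℤ) ^ 2 + b * n + c).natAbs.divisors.card) * 2 ^ (r + 1)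
      ≤ (E.card * 2 ^ R) * 2 ^ (r + 1) := Nat.mul_le_mul_right _ hdiv
    _ = 2 ^ (r + 1 + R) * E.card := by rw [pow_add]; ring

end Pool.Agent.TH423.DS
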