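import Pool.Agent.TH423.DS.Sieve

/-!
The family of values of a quadratic polynomial that are linked by the identity
`(U + m) ^ 2 - D = U * (U + 2 * m + V)`, where `U * V = m ^ 2 - D`.
-/

set_option autoImplicit false

open Finset Polynomial

namespace Pool.Agent.TH423.DS

open Pool.Agent.H661R3.OP (Rough)

theorem comp_lin {F : Type} [Field F] (g : F[X]) (hg : g ≠ 0) (β γ : F) (hβ : β ≠ 0) :
    g.comp (C β * X + C γ) ≠ 0 ∧ (g.comp (C β * X + C γ)).natDegree = g.natDegree := by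
  constructor
  · intro h
    rw [comp_eq_zero_iff] at h
    rcases h with h | ⟨-, h⟩
    · exact hg h
    · have h1 := natDegree_linear (a := β) (b := γ) hβ
      rw [h, natDegree_C] at h1
      exact absurd h1 (by norm_num)
  · rw [natDegree_comp, natDegree_linear hβ, mul_one]

theorem comp_quad {F : Type} [Field F] (g : F[X]) (hg : g ≠ 0) (α β γ : F) (hα : α ≠ 0) :
    g.comp (C α * X ^ 2 + C β * X + C γ) ≠ 0 ∧
      (g.comp (C α * X ^ 2 + C β * X + C γ)).natDegree = g.natDegree * 2 := by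
  constructor
  · intro h
    rw [comp_eq_zero_iff] at h
    rcases h with h | ⟨-, h⟩
    · exact hg h
    · have h1 := natDegree_quadratic (a := α) (b := β) (c := γ) hα
      rw [h, natDegree_C] at h1
      exact absurd h1 (by norm_num)
  · rw [natDegree_comp, natDegree_quadratic hα]

theorem pol_sq {F : Type} [Field F] (μ m0 e Δ : F) (hμ : μ ≠ 0) :
    ∃ h : F[X], h ≠ 0 ∧ h.natDegree ≤ 2 ∧ ∀ t : F, h.eval t = (m0 + t * μ - e) ^ 2 - Δ := by
  obtain ⟨h1, h2⟩ := comp_lin (X ^ 2 - C Δ : F[X]) (X_pow_sub_C_ne_zero (by norm_num) _) μ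
    (m0 - e) hμ
  refine ⟨_, h1, ?_, fun t => ?_⟩
  · rw [h2, natDegree_X_pow_sub_C]
  · rw [eval_comp]
    simp only [eval_sub, eval_pow, eval_X, eval_C, eval_add, eval_mul]
    ring

theorem pol_lin {F : Type} [Field F] (g : F[X]) (hg : g ≠ 0) (μ m0 κ e : F) (hμ : μ ≠ 0)
    (hκ : κ ≠ 0) : ∃ h : F[X], h ≠ 0 ∧ h.natDegree ≤ g.natDegree ∧
      ∀ t : F, h.eval t = g.eval (κ * ((m0 + t * μ) - e)) := by
  obtain ⟨h1, h2⟩ := comp_lin g hg (κ * μ) (κ * (m0 - e)) (mul_ne_zero hκ hμ)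
  refine ⟨_, h1, h2.le, fun t => ?_⟩
  rw [eval_comp]
  simp only [eval_X, eval_C, eval_add, eval_mul]
  congr 1
  ring

theorem pol_quad {F : Type} [Field F] (g : F[X]) (hg : g ≠ 0) (μ m0 κ u e : F) (hμ : μ ≠ 0)
    (hκ : κ ≠ 0) : ∃ h : F[X], h ≠ 0 ∧ h.natDegree ≤ g.natDegree * 2 ∧
      ∀ t : F, h.eval t = g.eval (κ * ((m0 + t * μ) ^ 2 - u * (m0 + t * μ) - e)) := by
  obtain ⟨h1, h2⟩ := comp_quad g hg (κ * μ ^ 2) (κ * μ * (2 * m0 - u)) (κ * (m0 ^ 2 - u * m0 - e))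
    (mul_ne_zero hκ (pow_ne_zero _ hμ))
  refine ⟨_, h1, h2.le, fun t => ?_⟩
  rw [eval_comp]
  simp only [eval_X, eval_C, eval_add, eval_mul, eval_pow]
  congr 1
  ring

/-- the two members of the family, algebra -/
theorem alg (a b c Lp m u w H M nst : ℤ) (huw : u * w = M)
    (hH : m ^ 2 - Lp ^ 2 * (b ^ 2 - 4 * a * c) = M * H)
    (hu : a * (2 * Lp) ^ 2 ∣ u - 1)
    (hm : a * (2 * Lp) ^ 2 ∣ m - (Lp * (2 * a * nst + b) + 1)) :
    ∃ n y : ℤ, 2 * Lp ∣ n - nst ∧ a * (2 * Lp) * n = m - u - b * Lp ∧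
      a * (2 * Lp) ^ 2 * y = u - 2 * m + w * H := by
  obtain ⟨x, hx⟩ := hu
  obtain ⟨z, hz⟩ := hm
  refine ⟨nst + 2 * Lp * (z - x), (x - 2 * z) + (a * nst ^ 2 + b * nst + c) +
    (2 * z * (Lp * (2 * a * nst + b) + 1) + a * (2 * Lp) ^ 2 * z ^ 2) - x * (w * H), ?_, ?_, ?_⟩
  · exact ⟨z - x, by ring⟩
  · linear_combination hx - hz
  · have h1 : u = 1 + a * (2 * Lp) ^ 2 * x := by linarith
    have h2 : m = Lp * (2 * a * nst + b) + 1 + a * (2 * Lp) ^ 2 * z := by linarith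
    have h3 : u * w * H = m ^ 2 - Lp ^ 2 * (b ^ 2 - 4 * a * c) := by rw [hH, huw]
    have h4 : w * H = m ^ 2 - Lp ^ 2 * (b ^ 2 - 4 * a * c) - a * (2 * Lp) ^ 2 * x * (w * H) := by
      rw [← h3, h1]; ring
    have h5 : a * (2 * Lp) ^ 2 * (x * (w * H)) =
        m ^ 2 - Lp ^ 2 * (b ^ 2 - 4 * a * c) - w * H := by linarith
    rw [mul_sub, h5, h1, h2]
    ring

/-- the values of the quadratic polynomial -/
theorem values (a b c Lp m u w H M n y : ℤ) (ha : 0 < a) (hLp : 0 < Lp) (huw : u * w = M)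
    (hH : m ^ 2 - Lp ^ 2 * (b ^ 2 - 4 * a * c) = M * H)
    (hn : a * (2 * Lp) * n = m - u - b * Lp)
    (hy : a * (2 * Lp) ^ 2 * y = u - 2 * m + w * H) :
    a * n ^ 2 + b * n + c = u * y ∧
      a * (n + 2 * Lp * y) ^ 2 + b * (n + 2 * Lp * y) + c = w * H * y ∧
      Lp * (2 * a * (n + 2 * Lp * y) + b) = w * H - m := by
  have hW : a * (2 * Lp) ^ 2 ≠ 0 := by positivity
  have h3 : u * w * H = m ^ 2 - Lp ^ 2 * (b ^ 2 - 4 * a * c) := by rw [hH, huw]
  have hn' : m = a * (2 * Lp) * n + u + b * Lp := by linarith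
  refine ⟨?_, ?_, ?_⟩
  · apply mul_left_cancel₀ hW
    have : a * (2 * Lp) ^ 2 * (u * y) = u * (u - 2 * m + w * H) := by rw [← hy]; ring
    rw [this]
    have h4 : u * (u - 2 * m + w * H) = u ^ 2 - 2 * m * u + u * w * H := by ring
    rw [h4, h3, hn']
    ring
  · apply mul_left_cancel₀ hW
    have h5 : w * H - m = Lp * (2 * a * (n + 2 * Lp * y) + b) := by
      linear_combination -hn - hy
    have h6 : a * (2 * Lp) ^ 2 * (w * H * y) = w * H * (u - 2 * m + w * H) := by rw [← hy]; ring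
    rw [h6]
    have h7 : w * H * (u - 2 * m + w * H) = u * w * H - m ^ 2 + (w * H - m) ^ 2 := by ring
    rw [h7, h3, h5]
    ring
  · linear_combination hn + hy

/-- positivity and size -/
theorem sizes (a b c Lp m u w H M n y : ℤ) (ha : 0 < a) (hLp : 0 < Lp) (hM : 0 < M)
    (hu0 : 0 < u) (hw0 : 0 < w) (huw : u * w = M)
    (hDM : |b ^ 2 - 4 * a * c| ≤ M) (hbM : |b| ≤ M)
    (hm : M * (a * (2 * Lp) ^ 2) ≤ m)
    (hH : m ^ 2 - Lp ^ 2 * (b ^ 2 - 4 * a * c) = M * H)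
    (hn : a * (2 * Lp) * n = m - u - b * Lp)
    (hy : a * (2 * Lp) ^ 2 * y = u - 2 * m + w * H) :
    0 < m ∧ 3 * m ≤ H ∧ 0 < n ∧ 0 < y ∧ M * H ≤ 2 * m ^ 2 := by
  have hW : 0 < a * (2 * Lp) ^ 2 := by positivity
  have hL1 : 1 ≤ Lp := hLp
  have ha1 : 1 ≤ a := ha
  have hM1 : 1 ≤ M := hM
  have hm0 : 0 < m := lt_of_lt_of_le (by positivity) hm
  have h4 : 4 * (Lp ^ 2 * M) ≤ m := by
    refine le_trans ?_ hm
    nlinarith [mul_pos hM (pow_pos hLp 2)]
  have h5 : 4 * (Lp ^ 2 * |b ^ 2 - 4 * a * c|) ≤ m := by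
    refine le_trans ?_ h4
    have := mul_le_mul_of_nonneg_left hDM (sq_nonneg Lp)
    linarith
  have h6 := abs_le.1 (le_refl |b ^ 2 - 4 * a * c|)
  have h7 : Lp ^ 2 * (b ^ 2 - 4 * a * c) ≤ Lp ^ 2 * |b ^ 2 - 4 * a * c| :=
    mul_le_mul_of_nonneg_left h6.2 (sq_nonneg _)
  have h8 : -(Lp ^ 2 * |b ^ 2 - 4 * a * c|) ≤ Lp ^ 2 * (b ^ 2 - 4 * a * c) := by
    have := mul_le_mul_of_nonneg_left h6.1 (sq_nonneg Lp)
    linarith
  have hm1 : m ≤ m ^ 2 := by nlinarith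
  have h9 : 3 * m ^ 2 ≤ 4 * (M * H) := by rw [← hH]; linarith
  have h10 : M * H ≤ 2 * m ^ 2 := by rw [← hH]; linarith
  have hH3 : 3 * m ≤ H := by
    by_contra hcon
    push Not at hcon
    have h11 : M * H < M * (3 * m) := mul_lt_mul_of_pos_left hcon hM
    have h12 : 4 * M ≤ m := by
      refine le_trans ?_ h4
      nlinarith [mul_le_mul_of_nonneg_right (one_le_pow₀ hL1 : 1 ≤ Lp ^ 2) hM.le]
    nlinarith [mul_le_mul_of_nonneg_right h12 hm0.le]
  have hwH : H ≤ w * H := by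
    have : 0 ≤ H := by linarith
    nlinarith
  have huM : u ≤ M := by nlinarith
  have hbL : b * Lp ≤ Lp * M := by
    have := mul_le_mul_of_nonneg_left ((le_abs_self b).trans hbM) hLp.le
    linarith
  have hLM : 4 * (Lp * M) ≤ m := by
    refine le_trans ?_ h4
    nlinarith [mul_le_mul_of_nonneg_right (show Lp ≤ Lp ^ 2 by nlinarith) hM.le]
  have hMm : M ≤ Lp * M := by nlinarith
  refine ⟨hm0, hH3, ?_, ?_, h10⟩
  · have : 0 < a * (2 * Lp) * n := by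
      rw [hn]
      have : 0 < Lp * M := by positivity
      linarith
    exact (mul_pos_iff_of_pos_left (by positivity)).1 this
  · have : 0 < a * (2 * Lp) ^ 2 * y := by
      rw [hy]
      linarith
    exact (mul_pos_iff_of_pos_left (by positivity)).1 this

end Pool.Agent.TH423.DS
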