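import Pool.Agent.H661R3.OP.SV

/-!
A lower bound sieve for periodic conditions with a bounded number of classes, and its form for
integer sequences that are given by polynomials modulo every prime.
-/

set_option autoImplicit false

open Finset

namespace Pool.Agent.TH423.DS

open Pool.Agent.H661R3.OP (Rough)
open Pool.Agent.H410R2.ED (Pr)
open Pool.Agent.H661R3.OP.SVA (prime_of_mem_Pr one_sub_ge prod_ge exists_J)

open Classical in
/-- the modulus attached to `n` -/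
noncomputable def nn (P : ℕ → ℕ → Prop) (k J n : ℕ) : ℕ :=
  ∏ l ∈ (Pr k J).filter (fun l => P l n), l

theorem dvd_nn (P : ℕ → ℕ → Prop) {k J l : ℕ} (n : ℕ) (hl : l ∈ Pr k J) :
    l ∣ nn P k J n ↔ P l n := by
  classical
  unfold nn
  rw [Prime.dvd_finsetProd_iff (prime_of_mem_Pr hl).prime]
  constructor
  · rintro ⟨p, hp, hlp⟩
    rw [mem_filter] at hp
    have : l = p := (Nat.prime_dvd_prime_iff_eq (prime_of_mem_Pr hl) (prime_of_mem_Pr hp.1)).1 hlp
    subst this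
    exact hp.2
  · intro h
    exact ⟨l, mem_filter.2 ⟨hl, by convert h⟩, dvd_rfl⟩

open Classical in
/-- the sieve for periodic conditions -/
theorem sieve_P (k : ℕ) (hk1 : 1 ≤ k) : ∃ C : ℕ, ∀ (P : ℕ → ℕ → Prop) (Y : ℕ), 2 ≤ Y →
    (∀ l n : ℕ, P l (n + l) ↔ P l n) →
    (∀ l : ℕ, l.Prime → ((range l).filter (P l)).card ≤ k) →
    (∀ l n : ℕ, l.Prime → l ≤ 2 * k → ¬ P l n) →
    ∀ T : ℕ, Y ^ C ≤ T →
    T ≤ Y ^ C * ((range T).filter (fun n => ∀ l : ℕ, l.Prime → l ≤ Y → ¬ P l n)).card := by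
  obtain ⟨c₀, hc₀, hB⟩ := Pool.Agent.H483R2.bhk
  refine ⟨4 * k + 2 * c₀ * k + 2, ?_⟩
  intro P Y hY hshift hcard hsm T hT
  obtain ⟨J, hJ1, hJ2⟩ := exists_J hY
  set P' : ℕ → ℕ → Prop := fun l n => l ≤ Y ∧ P l n with hP'
  have hshift' : ∀ l n : ℕ, P' l (n + l) ↔ P' l n := by
    intro l n
    simp only [hP']
    rw [hshift]
  have hcard' : ∀ l : ℕ, l.Prime → ((range l).filter (P' l)).card ≤ k := by
    intro l hl
    refine le_trans (card_le_card ?_) (hcard l hl)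
    intro n hn
    rw [mem_filter] at hn ⊢
    exact ⟨hn.1, hn.2.2⟩
  set g : ℕ → ℝ := fun l => (((range l).filter (P' l)).card : ℝ) / l with hg
  have hcnt : ∀ l : ℕ, l.Prime → (((range l).filter (P' l)).card : ℝ) ≤ k := by
    intro l hl
    exact_mod_cast hcard' l hl
  have hg0 : ∀ l, l.Prime → 0 ≤ g l ∧ g l ≤ (k : ℝ) / l := by
    intro l hl
    refine ⟨by simp only [hg]; positivity, ?_⟩
    simp only [hg]
    exact div_le_div_of_nonneg_right (hcnt l hl) (Nat.cast_nonneg _)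
  have hmain := hB k hk1 g hg0 J ℕ (Ico 0 (0 + T)) (nn P' k J) T 1 (Nat.cast_nonneg _)
    zero_le_one (by
      intro D hD
      have h1 := Pool.Agent.H483R2.countCRT D P' (fun l hl => prime_of_mem_Pr (hD hl))
        (fun l _ n => hshift' l n) 0 T
      have hset : (Ico 0 (0 + T)).filter (fun ω => ∀ l ∈ D, l ∣ nn P' k J ω) =
          (Ico 0 (0 + T)).filter (fun n => ∀ l ∈ D, P' l n) := by
        apply filter_congr
        intro n _
        exact forall₂_congr fun l hl => dvd_nn P' n (hD hl)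
      rw [hset, mul_one]
      refine h1.trans ?_
      calc ∏ l ∈ D, (((range l).filter (P' l)).card : ℝ)
          ≤ ∏ l ∈ D, (k : ℝ) := by
            refine prod_le_prod (fun _ _ => Nat.cast_nonneg _) fun l hl => ?_
            exact hcnt l (prime_of_mem_Pr (hD hl))
        _ = (k : ℝ) ^ D.card := by rw [prod_const])
  have hlow := hmain.1
  set N : ℕ := ((Ico 0 (0 + T)).filter
    (fun ω => ∀ l ∈ Pool.Agent.H410R2.ED.Pr k J, ¬ l ∣ nn P' k J ω)).card with hN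
  have hprod := prod_ge (k := k) (J := J) g (fun l hl => (hg0 l (prime_of_mem_Pr hl)).2)
  -- the transfer
  have htr : N ≤ ((range T).filter (fun n => ∀ l : ℕ, l.Prime → l ≤ Y → ¬ P l n)).card := by
    rw [hN]
    apply card_le_card
    intro n hn
    rw [mem_filter, mem_Ico] at hn
    rw [mem_filter, mem_range]
    refine ⟨by omega, ?_⟩
    intro p hp hpY hPp
    by_cases hpk : p ≤ 2 * k
    · exact hsm p n hp hpk hPp
    · have hmem : p ∈ Pool.Agent.H410R2.ED.Pr k J := by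
        unfold Pool.Agent.H410R2.ED.Pr
        rw [mem_filter, mem_range]
        exact ⟨by omega, hp, by omega⟩
      exact hn.2 p hmem ((dvd_nn P' n hmem).2 ⟨hpY, hPp⟩)
  refine le_trans ?_ (Nat.mul_le_mul_left _ htr)
  -- the numbers
  set y : ℝ := (2 : ℝ) ^ 2 ^ J with hy
  have hy1 : 1 ≤ y := one_le_pow₀ (by norm_num)
  have hyY : y ≤ (Y : ℝ) ^ 2 := by
    rw [hy]; exact_mod_cast hJ2
  set A : ℝ := y ^ (2 * k) with hA
  set B : ℝ := y ^ (c₀ * k) with hBB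
  have hA1 : 1 ≤ A := one_le_pow₀ hy1
  have hB1 : 1 ≤ B := one_le_pow₀ hy1
  have hAY : A ≤ (Y : ℝ) ^ (4 * k) := by
    calc A ≤ ((Y : ℝ) ^ 2) ^ (2 * k) := pow_le_pow_left₀ (by linarith) hyY _
      _ = (Y : ℝ) ^ (4 * k) := by rw [← pow_mul]; congr 1; ring
  have hBY : B ≤ (Y : ℝ) ^ (2 * c₀ * k) := by
    calc B ≤ ((Y : ℝ) ^ 2) ^ (c₀ * k) := pow_le_pow_left₀ (by linarith) hyY _
      _ = (Y : ℝ) ^ (2 * c₀ * k) := by rw [← pow_mul]; congr 1; ring
  have hYr : (2 : ℝ) ≤ Y := by exact_mod_cast hY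
  have hYC : 4 * (A * B) ≤ (Y : ℝ) ^ (4 * k + 2 * c₀ * k + 2) := by
    rw [pow_add, pow_add]
    have h1 : A * B ≤ (Y : ℝ) ^ (4 * k) * (Y : ℝ) ^ (2 * c₀ * k) :=
      mul_le_mul hAY hBY (by linarith) (by positivity)
    have h2 : (4 : ℝ) ≤ (Y : ℝ) ^ 2 := by nlinarith
    calc 4 * (A * B) = (A * B) * 4 := by ring
      _ ≤ ((Y : ℝ) ^ (4 * k) * (Y : ℝ) ^ (2 * c₀ * k)) * (Y : ℝ) ^ 2 :=
        mul_le_mul h1 h2 (by norm_num) (by positivity)
  have hTr : (Y : ℝ) ^ (4 * k + 2 * c₀ * k + 2) ≤ T := by exact_mod_cast hT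
  have hT0 : (0 : ℝ) ≤ T := Nat.cast_nonneg _
  have hABT : 4 * (A * B) ≤ T := hYC.trans hTr
  have hA0 : 0 < A := by linarith
  -- lower bound
  have h5 : (T : ℝ) / (4 * A) ≤ N := by
    have h6 : (T : ℝ) / 2 * (1 / A) - B ≤ N := by
      have h7 : (T : ℝ) / 2 * (1 / A) ≤
          (T : ℝ) / 2 * ∏ l ∈ Pool.Agent.H410R2.ED.Pr k J, (1 - g l) :=
        mul_le_mul_of_nonneg_left hprod (by positivity)
      rw [mul_one] at hlow
      linarith
    have h8 : B ≤ (T : ℝ) / (4 * A) := by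
      rw [le_div_iff₀ (by positivity)]
      linarith
    have h9 : (T : ℝ) / 2 * (1 / A) = T / (4 * A) + T / (4 * A) := by
      field_simp
      ring
    linarith
  have h10 : (T : ℝ) ≤ (Y : ℝ) ^ (4 * k + 2 * c₀ * k + 2) * N := by
    have h11 : 4 * A ≤ (Y : ℝ) ^ (4 * k + 2 * c₀ * k + 2) := by
      refine le_trans ?_ hYC
      nlinarith
    calc (T : ℝ) = 4 * A * (T / (4 * A)) := by field_simp
      _ ≤ 4 * A * N := mul_le_mul_of_nonneg_left h5 (by positivity)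
      _ ≤ (Y : ℝ) ^ (4 * k + 2 * c₀ * k + 2) * N :=
        mul_le_mul_of_nonneg_right h11 (Nat.cast_nonneg _)
  exact_mod_cast h10

/-- number of zeros modulo a prime -/
theorem card_zeros (l : ℕ) (hl : l.Prime) (h : Polynomial (ZMod l)) (h0 : h ≠ 0) :
    ((range l).filter (fun t : ℕ => h.eval (t : ZMod l) = 0)).card ≤ h.natDegree := by
  classical
  have : Fact l.Prime := ⟨hl⟩
  have hinj : Set.InjOn (fun t : ℕ => (t : ZMod l))
      ((range l).filter (fun t : ℕ => h.eval (t : ZMod l) = 0) : Finset ℕ) := by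
    intro a ha b hb hab
    rw [mem_coe, mem_filter, mem_range] at ha hb
    have := (ZMod.natCast_eq_natCast_iff a b l).1 hab
    exact Nat.ModEq.eq_of_lt_of_lt this ha.1 hb.1
  rw [← card_image_of_injOn hinj]
  refine le_trans (card_le_card ?_) ((Multiset.toFinset_card_le _).trans h.card_roots')
  intro x hx
  rw [mem_image] at hx
  obtain ⟨t, ht, rfl⟩ := hx
  rw [mem_filter] at ht
  rw [Multiset.mem_toFinset, Polynomial.mem_roots h0]
  exact ht.2

open Classical in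
/-- the sieve for sequences that are polynomial modulo every prime -/
theorem sieve_poly (k : ℕ) (hk1 : 1 ≤ k) : ∃ C : ℕ, ∀ (κ : Type) [Fintype κ] (v : κ → ℕ → ℤ)
    (e : κ → ℕ) (Y : ℕ), 2 ≤ Y → ∑ i, e i ≤ k →
    (∀ i, ∀ l : ℕ, l.Prime → l ≤ Y → 2 * k < l → ∃ h : Polynomial (ZMod l), h ≠ 0 ∧
      h.natDegree ≤ e i ∧ ∀ t : ℕ, ((l : ℤ) ∣ v i t ↔ h.eval (t : ZMod l) = 0)) →
    (∀ i, ∀ l : ℕ, l.Prime → l ≤ Y → l ≤ 2 * k → ∀ t : ℕ, ¬ (l : ℤ) ∣ v i t) →
    ∀ T : ℕ, Y ^ C ≤ T →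
    T ≤ Y ^ C * ((range T).filter (fun t => ∀ i, Rough Y (v i t))).card := by
  obtain ⟨C, hC⟩ := sieve_P k hk1
  refine ⟨C, ?_⟩
  intro κ _ v e Y hY he hbig hsmall T hT
  obtain ⟨P, hP⟩ : ∃ P : ℕ → ℕ → Prop, ∀ l n, P l n ↔
      (l.Prime ∧ l ≤ Y ∧ 2 * k < l ∧ ∃ i, (l : ℤ) ∣ v i n) := ⟨_, fun _ _ => Iff.rfl⟩
  have h1 := hC P Y hY ?_ ?_ ?_ T hT
  · refine h1.trans (Nat.mul_le_mul_left _ (card_le_card ?_))
    intro n hn
    rw [mem_filter] at hn ⊢
    refine ⟨hn.1, fun i p hp hpY hdvd => ?_⟩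
    by_cases hpk : p ≤ 2 * k
    · exact hsmall i p hp hpY hpk n hdvd
    · exact hn.2 p hp hpY ((hP _ _).2 ⟨hp, hpY, by omega, i, hdvd⟩)
  · intro l n
    rw [hP, hP]
    constructor
    · rintro ⟨hl, hlY, hlk, i, hi⟩
      refine ⟨hl, hlY, hlk, i, ?_⟩
      obtain ⟨h, -, -, hh⟩ := hbig i l hl hlY hlk
      rw [hh] at hi ⊢
      have : ((n + l : ℕ) : ZMod l) = (n : ZMod l) := by simp
      rwa [this] at hi
    · rintro ⟨hl, hlY, hlk, i, hi⟩
      refine ⟨hl, hlY, hlk, i, ?_⟩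
      obtain ⟨h, -, -, hh⟩ := hbig i l hl hlY hlk
      rw [hh] at hi ⊢
      have : ((n + l : ℕ) : ZMod l) = (n : ZMod l) := by simp
      rwa [this]
  · intro l hl
    by_cases hlY : l ≤ Y
    swap
    · rw [filter_false_of_mem (fun n _ h => hlY ((hP _ _).1 h).2.1)]
      simp
    by_cases hlk : 2 * k < l
    swap
    · rw [filter_false_of_mem (fun n _ h => hlk ((hP _ _).1 h).2.2.1)]
      simp
    have h1 : (range l).filter (P l) ⊆
        (univ : Finset κ).biUnion (fun i => (range l).filter (fun n : ℕ => (l : ℤ) ∣ v i n)) := by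
      intro n hn
      rw [mem_filter] at hn
      obtain ⟨hn1, hn2⟩ := hn
      obtain ⟨-, -, -, i, hi⟩ := (hP _ _).1 hn2
      rw [mem_biUnion]
      exact ⟨i, mem_univ _, mem_filter.2 ⟨hn1, hi⟩⟩
    refine (card_le_card h1).trans (card_biUnion_le.trans ?_)
    refine le_trans (sum_le_sum fun i _ => ?_) he
    obtain ⟨h, h0, hdeg, hh⟩ := hbig i l hl hlY hlk
    have : (range l).filter (fun n : ℕ => (l : ℤ) ∣ v i n) =
        (range l).filter (fun n : ℕ => h.eval (n : ZMod l) = 0) :=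
      filter_congr fun n _ => hh n
    rw [this]
    exact (card_zeros l hl h h0).trans hdeg
  · intro l n hl hlk h
    have := ((hP _ _).1 h).2.2.1
    omega

end Pool.Agent.TH423.DS
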